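import Pool.Agent.H95.NN.Path

/-!
The ancestral chains of the nearest neighbour tree: deterministic displacement bounds.
-/

open MeasureTheory Set Metric

namespace Pool.Agent.H95.NN

variable {X : Type*} [PseudoMetricSpace X]

/-- Index of the vertex to which vertex `i` attaches: the earliest among the nearest ones. -/
noncomputable def par (q : ℕ → X) (i : ℕ) : ℕ :=
  sInf {j | j < i ∧ ∀ l < i, dist (q i) (q j) ≤ dist (q i) (q l)}

lemma par_mem (q : ℕ → X) {i : ℕ} (hi : 0 < i) :
    par q i ∈ {j | j < i ∧ ∀ l < i, dist (q i) (q j) ≤ dist (q i) (q l)} := by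
  refine Nat.sInf_mem ?_
  obtain ⟨j, hj, hmin⟩ := Finset.exists_min_image (Finset.range i) (fun j => dist (q i) (q j))
    ⟨0, Finset.mem_range.2 hi⟩
  exact ⟨j, Finset.mem_range.1 hj, fun l hl => hmin l (Finset.mem_range.2 hl)⟩

lemma par_lt (q : ℕ → X) {i : ℕ} (hi : 0 < i) : par q i < i := (par_mem q hi).1

lemma par_le (q : ℕ → X) {i : ℕ} (hi : 0 < i) {l : ℕ} (hl : l < i) :
    dist (q i) (q (par q i)) ≤ dist (q i) (q l) := (par_mem q hi).2 l hl

lemma par_zero (q : ℕ → X) : par q 0 = 0 := by simp [par]

lemma par_one (q : ℕ → X) : par q 1 = 0 := by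
  have := par_lt q one_pos; omega

lemma par_le_self (q : ℕ → X) (i : ℕ) : par q i ≤ i := by
  rcases Nat.eq_zero_or_pos i with rfl | hi
  · rw [par_zero]
  · exact (par_lt q hi).le

lemma iter_le (q : ℕ → X) (n i : ℕ) : (par q)^[n] i ≤ i := by
  induction n with
  | zero => simp
  | succ n ih => rw [Function.iterate_succ_apply']; exact (par_le_self q _).trans ih

lemma iter_exists_lt (q : ℕ → X) {M : ℕ} (hM : 0 < M) (i : ℕ) : ∃ n, (par q)^[n] i < M := by
  induction i using Nat.strong_induction_on with
  | _ i ih =>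
    by_cases h : i < M
    · exact ⟨0, h⟩
    · obtain ⟨n, hn⟩ := ih (par q i) (par_lt q (by omega))
      exact ⟨n + 1, by rwa [Function.iterate_succ_apply]⟩

/-- Following an ancestral chain down to the indices below `N k0`. -/
theorem chain_follow {q : ℕ → X} {U : Set X} {N : ℕ → ℕ} {h : ℕ → ℝ} {s : ℕ → ℕ}
    (hh : ∀ k, 0 ≤ h k) {k0 : ℕ} (hN : Monotone N) (hN0 : 0 < N k0)
    (hcov : ∀ k, k0 ≤ k → ∀ y ∈ U, ∃ j < N k, dist y (q j) ≤ 2 * h k)
    (hpath : ∀ k, k0 ≤ k → ∀ g : ℕ → ℕ,
      (∀ l ≤ s k, N k ≤ g l ∧ g l < N (k + 1) ∧ q (g l) ∈ U) →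
      (∀ l < s k, g (l + 1) < g l ∧ dist (q (g l)) (q (g (l + 1))) ≤ 2 * h k) → False) :
    ∀ k, k0 ≤ k → ∀ i < N k,
      closedBall (q i) (∑ l ∈ Finset.range k, (s l : ℝ) * (2 * h l)) ⊆ U →
      ∃ n, (par q)^[n] i < N k0 ∧ ∀ n' ≤ n,
        dist (q i) (q ((par q)^[n'] i)) ≤ ∑ l ∈ Finset.range k, (s l : ℝ) * (2 * h l) := by
  have hterm : ∀ l, 0 ≤ (s l : ℝ) * (2 * h l) := fun l => by have := hh l; positivity
  have hW0 : ∀ k, 0 ≤ ∑ l ∈ Finset.range k, (s l : ℝ) * (2 * h l) := fun k =>
    Finset.sum_nonneg fun l _ => hterm l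
  intro k hk
  induction k, hk using Nat.le_induction with
  | base =>
    intro i hi _
    refine ⟨0, hi, fun n' hn' => ?_⟩
    obtain rfl : n' = 0 := by omega
    simp only [Function.iterate_zero, id, dist_self]
    exact hW0 _
  | succ k hk ih =>
    intro i hi hU
    have hWs : ∑ l ∈ Finset.range (k + 1), (s l : ℝ) * (2 * h l) =
        ∑ l ∈ Finset.range k, (s l : ℝ) * (2 * h l) + s k * (2 * h k) := Finset.sum_range_succ _ _
    set W := ∑ l ∈ Finset.range k, (s l : ℝ) * (2 * h l) with hW
    have hWk : 0 ≤ W := hW0 k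
    have hsk : 0 ≤ (s k : ℝ) * (2 * h k) := hterm k
    rw [hWs] at hU ⊢
    by_cases hik : i < N k
    · obtain ⟨n, hn, hd⟩ := ih i hik ((closedBall_subset_closedBall (by linarith)).trans hU)
      exact ⟨n, hn, fun n' hn' => (hd n' hn').trans (by linarith)⟩
    · have hNk : 0 < N k := hN0.trans_le (hN hk)
      have hex := iter_exists_lt q hNk i
      classical
      set T := Nat.find hex with hT
      have hT1 : (par q)^[T] i < N k := Nat.find_spec hex
      have hT2 : ∀ n < T, N k ≤ (par q)^[n] i := fun n hn => not_lt.1 (Nat.find_min hex hn)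
      have hclaim : ∀ n, n ≤ T → n ≤ s k →
          dist (q i) (q ((par q)^[n] i)) ≤ n * (2 * h k) := by
        intro n
        induction n with
        | zero => intro _ _; simp
        | succ n ihn =>
          intro hnT hns
          have h1 := ihn (by omega) (by omega)
          have h2 := hT2 n (by omega)
          have h3 : q ((par q)^[n] i) ∈ U := by
            apply hU
            rw [mem_closedBall, dist_comm]
            have : (n : ℝ) ≤ s k := by exact_mod_cast (by omega : n ≤ s k)
            have h4 : (n : ℝ) * (2 * h k) ≤ s k * (2 * h k) := by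
              have := hh k
              gcongr
            linarith
          obtain ⟨j, hj, hdj⟩ := hcov k hk _ h3
          have h5 : dist (q ((par q)^[n] i)) (q (par q ((par q)^[n] i))) ≤ 2 * h k :=
            (par_le q (by omega) (by omega)).trans hdj
          rw [Function.iterate_succ_apply']
          calc dist (q i) (q (par q ((par q)^[n] i)))
              ≤ dist (q i) (q ((par q)^[n] i)) +
                dist (q ((par q)^[n] i)) (q (par q ((par q)^[n] i))) := dist_triangle _ _ _
            _ ≤ n * (2 * h k) + 2 * h k := add_le_add h1 h5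
            _ = (n + 1 : ℕ) * (2 * h k) := by push_cast; ring
      have hmemU : ∀ n, n ≤ T → n ≤ s k → q ((par q)^[n] i) ∈ U := by
        intro n hnT hns
        apply hU
        rw [mem_closedBall, dist_comm]
        have h1 := hclaim n hnT hns
        have : (n : ℝ) ≤ s k := by exact_mod_cast hns
        have h4 : (n : ℝ) * (2 * h k) ≤ s k * (2 * h k) := by
          have := hh k
          gcongr
        linarith
      have hTs : T ≤ s k := by
        by_contra hcon
        push Not at hcon
        refine hpath k hk (fun l => (par q)^[l] i) ?_ ?_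
        · intro l hl
          exact ⟨hT2 l (by omega), (iter_le q l i).trans_lt hi, hmemU l (by omega) hl⟩
        · intro l hl
          have h2 := hT2 l (by omega)
          obtain ⟨j, hj, hdj⟩ := hcov k hk _ (hmemU l (by omega) hl.le)
          simp only [Function.iterate_succ_apply']
          exact ⟨par_lt q (by omega), (par_le q (by omega) (by omega)).trans hdj⟩
      have hdT := hclaim T le_rfl hTs
      have hTs' : (T : ℝ) * (2 * h k) ≤ s k * (2 * h k) := by
        have := hh k
        have : (T : ℝ) ≤ s k := by exact_mod_cast hTs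
        gcongr
      obtain ⟨n1, hn1, hd1⟩ := ih ((par q)^[T] i) hT1 (by
        refine Subset.trans ?_ hU
        refine closedBall_subset_closedBall' ?_
        rw [dist_comm]
        linarith)
      refine ⟨n1 + T, by rwa [Function.iterate_add_apply], fun n' hn' => ?_⟩
      by_cases hc : n' ≤ T
      · have h1 := hclaim n' hc (hc.trans hTs)
        have h2 : (n' : ℝ) * (2 * h k) ≤ s k * (2 * h k) := by
          have := hh k
          have : (n' : ℝ) ≤ s k := by exact_mod_cast hc.trans hTs
          gcongr
        linarith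
      · obtain ⟨m, rfl⟩ : ∃ m, n' = m + T := ⟨n' - T, by omega⟩
        have h1 := hd1 m (by omega)
        rw [Function.iterate_add_apply]
        have h2 := dist_triangle (q i) (q ((par q)^[T] i)) (q ((par q)^[m] ((par q)^[T] i)))
        linarith

/-- A descending path with short steps is in the path event. -/
lemma mem_pathEv {a : ℕ} {h : ℝ} {U : Set X} {q : ℕ → X} (s : ℕ) :
    ∀ g : ℕ → ℕ, (∀ l ≤ s, a ≤ g l) → (∀ l < s, g (l + 1) < g l ∧
      dist (q (g l)) (q (g (l + 1))) ≤ h) → q (g s) ∈ U → q ∈ PathEv a h U s (g 0) := by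
  induction s with
  | zero => intro g _ _ hU; exact hU
  | succ s ih =>
    intro g h1 h2 hU
    simp only [PathEv, mem_iUnion, Finset.mem_Ico, mem_inter_iff, mem_ofPred_eq, exists_prop]
    refine ⟨g 1, ⟨h1 1 (by omega), (h2 0 (by omega)).1⟩, (h2 0 (by omega)).2, ?_⟩
    exact ih (fun l => g (l + 1)) (fun l hl => h1 (l + 1) (by omega))
      (fun l hl => h2 (l + 1) (by omega)) hU

end Pool.Agent.H95.NN
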