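import Pool.Agent.H95.NN.Small

/-!
The two sides of the first edge of the tree, measurability, and the deterministic part of the
ownership lemma.
-/

open MeasureTheory Set Metric

namespace Pool.Agent.H95.NN

variable {X : Type*} [PseudoMetricSpace X]

/-- The side of the vertex `i`: the first of the vertices `0`, `1` met by its ancestral chain. -/
noncomputable def cl (q : ℕ → X) (i : ℕ) : ℕ :=
  if _h : i < 2 then i else cl q (par q i)
termination_by i
decreasing_by exact par_lt q (by omega)

lemma cl_lt {q : ℕ → X} {i : ℕ} (h : i < 2) : cl q i = i := by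
  rw [cl]; simp [h]

lemma cl_ge {q : ℕ → X} {i : ℕ} (h : 2 ≤ i) : cl q i = cl q (par q i) := by
  conv_lhs => rw [cl]
  simp [not_lt.2 h]

lemma cl_lt_two (q : ℕ → X) (i : ℕ) : cl q i < 2 := by
  induction i using Nat.strong_induction_on with
  | _ i ih =>
    by_cases h : i < 2
    · rw [cl_lt h]; exact h
    · rw [cl_ge (by omega)]; exact ih _ (par_lt q (by omega))

lemma cl_iter {q : ℕ → X} (n : ℕ) : ∀ i, (∀ n' < n, 2 ≤ (par q)^[n'] i) →
    cl q i = cl q ((par q)^[n] i) := by
  induction n with
  | zero => intro i _; rfl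
  | succ n ih =>
    intro i h
    rw [Function.iterate_succ_apply, ← ih (par q i)]
    · exact cl_ge (h 0 (by omega))
    · intro n' hn'
      have := h (n' + 1) (by omega)
      rwa [Function.iterate_succ_apply] at this

/-- Phase 1: while the shell around `w a` is empty, the points close to `w a` are on its side. -/
lemma phase_one {w : ℕ → X} {m M a : ℕ} (hm : 2 ≤ m) (ha : a < 2) {R : ℝ} (hR : 0 < R)
    (hold : ∀ j < m, j ≠ a → 8 * R ≤ dist (w j) (w a))
    (hnew : ∀ i, m ≤ i → i < M → dist (w i) (w a) ≤ 4 * R → dist (w i) (w a) ≤ 2 * R) :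
    ∀ i < M, dist (w i) (w a) ≤ 2 * R → cl w i = a := by
  intro i
  induction i using Nat.strong_induction_on with
  | _ i ih =>
    intro hiM hi
    by_cases him : i < m
    · by_cases hia : i = a
      · subst hia; exact cl_lt ha
      · have := hold i him hia
        linarith
    · push Not at him
      rw [cl_ge (hm.trans him)]
      have hj : par w i < i := par_lt w (by omega)
      have h1 : dist (w i) (w (par w i)) ≤ dist (w i) (w a) := par_le w (by omega) (by omega)
      have h2 : dist (w (par w i)) (w a) ≤ 4 * R := by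
        have := dist_triangle_left (w (par w i)) (w a) (w i)
        linarith
      refine ih _ hj (hj.trans hiM) ?_
      by_cases hjm : par w i < m
      · by_cases hja : par w i = a
        · rw [hja, dist_self]; linarith
        · have := hold _ hjm hja
          linarith
      · exact hnew _ (by omega) (hj.trans hiM) h2

/-- Phase 2: permanent ownership of a ball. -/
lemma phase_two {x q : ℕ → X} {m a Δ : ℕ} (hm : 2 ≤ m) (ha : a < 2) (hΔ : 0 < Δ) {R : ℝ}
    (hR : 0 < R) (hold : ∀ j < m, j ≠ a → 8 * R ≤ dist (x j) (x a))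
    (hnew : ∀ i < Δ, dist (q i) (x a) ≤ 4 * R → dist (q i) (x a) ≤ 2 * R)
    {h : ℕ → ℝ} {s : ℕ → ℕ} {Z : ℕ → Finset X} (hh : ∀ k, 0 < h k)
    (hZ : ∀ k, ∀ y ∈ closedBall (x a) R, ∃ z ∈ Z k, dist y z ≤ h k)
    (hsum : ∀ k, ∑ l ∈ Finset.range k, (s l : ℝ) * (2 * h l) ≤ R / 2)
    (hq : q ∉ Bad Δ h s Z (closedBall (x a) R))
    (hq0 : ∀ z ∈ Z 0, ∃ j < Δ, dist (q j) z ≤ h 0) :
    ∀ i, m + Δ ≤ i → dist (cat m x q i) (cat m x q a) ≤ R / 2 → cl (cat m x q) i = a := by
  intro i hi hdi
  set w := cat m x q with hw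
  have hwa : w a = x a := cat_lt (by omega)
  have hwj : ∀ j, w (m + j) = q j := fun j => cat_add j
  obtain ⟨k, hk1, hk⟩ := exists_lt_pow_mul hΔ i
  have hone : ∀ i < m + Δ, dist (w i) (w a) ≤ 2 * R → cl w i = a := by
    refine phase_one hm ha hR ?_ ?_
    · intro j hj hja
      rw [hwa, hw, cat_lt hj]
      exact hold j hj hja
    · intro i him hiM hdi
      obtain ⟨j, rfl⟩ := Nat.exists_eq_add_of_le him
      rw [hwj, hwa] at hdi ⊢
      exact hnew j (by omega) hdi
  have hball : closedBall (w i) (∑ l ∈ Finset.range k, (s l : ℝ) * (2 * h l)) ⊆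
      closedBall (x a) R := by
    refine closedBall_subset_closedBall' ?_
    have := hsum k
    rw [hwa] at hdi
    linarith
  have hex := chain_follow (q := w) (U := closedBall (x a) R) (N := fun k => m + 2 ^ k * Δ)
    (h := h) (s := s) (fun k => (hh k).le) (k0 := 0)
    (fun a b hab => Nat.add_le_add_left
      (Nat.mul_le_mul_right _ (Nat.pow_le_pow_right (by norm_num) hab)) _)
    (by positivity)
    (fun k _ y hy => by
      obtain ⟨z, hz, hyz⟩ := hZ k y hy
      by_cases hk0 : k = 0
      · subst hk0
        obtain ⟨j, hj, hjz⟩ := hq0 z hz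
        refine ⟨m + j, by simpa using hj, ?_⟩
        rw [hwj]
        have := dist_triangle_right y (q j) z
        linarith
      · obtain ⟨j, _, hj2, hj3⟩ := not_bad_cov hq (by omega) hz hyz
        exact ⟨m + j, by simpa using hj2, by rw [hwj]; exact hj3⟩)
    (fun k _ g h1 h2 => by
      have hgm : ∀ l ≤ s k, m + (g l - m) = g l := fun l hl => by
        have := (h1 l hl).1
        omega
      refine not_bad_path hq k (fun l => g l - m) (fun l hl => ?_) (fun l hl => ?_)
      · obtain ⟨h3, h4, h5⟩ := h1 l hl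
        refine ⟨by omega, by omega, ?_⟩
        rw [← hgm l hl, hwj] at h5
        exact h5
      · obtain ⟨h3, h4⟩ := h2 l hl
        have e1 := hgm l hl.le
        have e2 := hgm (l + 1) hl
        refine ⟨by show g (l + 1) - m < g l - m; omega, ?_⟩
        rw [← e1, ← e2, hwj, hwj] at h4
        exact h4) k (Nat.zero_le _) i (by omega) hball
  simp only [pow_zero, one_mul] at hex
  obtain ⟨n1, hn1, hd1⟩ := hex
  have hex' : ∃ n, (par w)^[n] i < m + Δ := ⟨n1, hn1⟩
  classical
  have hT1 := Nat.find_spec hex'
  have hT2 : ∀ n' < Nat.find hex', 2 ≤ (par w)^[n'] i := fun n' hn' => by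
    have := Nat.find_min hex' hn'
    omega
  rw [cl_iter _ i hT2]
  refine hone _ hT1 ?_
  have h3 := hd1 _ (Nat.find_min' hex' hn1)
  have h4 := hsum k
  have h5 := dist_triangle_left (w ((par w)^[Nat.find hex'] i)) (w a) (w i)
  linarith

variable [MeasurableSpace X] [OpensMeasurableSpace X] [SecondCountableTopology X]

lemma measurableSet_par (i j : ℕ) : MeasurableSet {q : ℕ → X | par q i = j} := by
  rcases Nat.eq_zero_or_pos i with rfl | hi
  · simp only [par_zero]
    by_cases h : 0 = j
    · simp [h]
    · simp [h]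
  · let M : ℕ → Set (ℕ → X) := fun j => {q | j < i ∧ ∀ l < i, dist (q i) (q j) ≤ dist (q i) (q l)}
    have hM : ∀ j, MeasurableSet (M j) := by
      intro j
      have : M j = {q | j < i} ∩ ⋂ l ∈ Finset.range i, {q | dist (q i) (q j) ≤ dist (q i) (q l)} := by
        ext q; simp [M]
      rw [this]
      refine (MeasurableSet.const _).inter (Finset.measurableSet_biInter _ fun l _ => ?_)
      exact measurableSet_le ((measurable_pi_apply i).dist (measurable_pi_apply j))
        ((measurable_pi_apply i).dist (measurable_pi_apply l))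
    have : {q : ℕ → X | par q i = j} = M j ∩ ⋂ j' ∈ Finset.range j, (M j')ᶜ := by
      ext q
      simp only [mem_ofPred_eq, mem_inter_iff, mem_iInter, Finset.mem_range, mem_compl_iff]
      constructor
      · rintro rfl
        exact ⟨par_mem q hi, fun j' hj' => Nat.notMem_of_lt_sInf hj'⟩
      · rintro ⟨h1, h2⟩
        refine le_antisymm (Nat.sInf_le h1) ?_
        by_contra hcon
        push Not at hcon
        exact h2 _ hcon (par_mem q hi)
    rw [this]
    exact (hM j).inter (Finset.measurableSet_biInter _ fun j' _ => (hM j').compl)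

lemma measurableSet_cl (i a : ℕ) : MeasurableSet {q : ℕ → X | cl q i = a} := by
  induction i using Nat.strong_induction_on with
  | _ i ih =>
    by_cases h : i < 2
    · simp only [cl_lt h]
      exact MeasurableSet.const _
    · have : {q : ℕ → X | cl q i = a} =
          ⋃ j ∈ Finset.range i, ({q | par q i = j} ∩ {q | cl q j = a}) := by
        ext q
        simp only [mem_ofPred_eq, mem_iUnion, Finset.mem_range, mem_inter_iff, exists_prop]
        rw [cl_ge (by omega)]
        constructor
        · intro h1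
          exact ⟨par q i, par_lt q (by omega), rfl, h1⟩
        · rintro ⟨j, _, rfl, h2⟩
          exact h2
      rw [this]
      exact Finset.measurableSet_biUnion _ fun j hj =>
        (measurableSet_par i j).inter (ih j (Finset.mem_range.1 hj))

/-- The vertex `a` eventually owns a ball. -/
def Own (a : ℕ) : Set (ℕ → X) :=
  ⋃ k : ℕ, ⋃ M : ℕ, ⋂ i : ℕ, {q | M ≤ i → dist (q i) (q a) ≤ 1 / ((k : ℝ) + 1) → cl q i = a}

lemma measurableSet_own (a : ℕ) : MeasurableSet (Own a : Set (ℕ → X)) := by
  refine MeasurableSet.iUnion fun k => MeasurableSet.iUnion fun M => MeasurableSet.iInter fun i => ?_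
  have : {q : ℕ → X | M ≤ i → dist (q i) (q a) ≤ 1 / ((k : ℝ) + 1) → cl q i = a} =
      {q | ¬ (M ≤ i)} ∪ ({q | dist (q i) (q a) ≤ 1 / ((k : ℝ) + 1)}ᶜ ∪ {q | cl q i = a}) := by
    ext q
    simp only [mem_ofPred_eq, mem_union, mem_compl_iff]
    tauto
  rw [this]
  refine (MeasurableSet.const _).union (MeasurableSet.union (MeasurableSet.compl ?_)
    (measurableSet_cl i a))
  exact measurableSet_le ((measurable_pi_apply i).dist (measurable_pi_apply a)) measurable_const

omit [MeasurableSpace X] [OpensMeasurableSpace X] [SecondCountableTopology X] in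
lemma mem_own {a M : ℕ} {ρ : ℝ} (hρ : 0 < ρ) {q : ℕ → X}
    (h : ∀ i, M ≤ i → dist (q i) (q a) ≤ ρ → cl q i = a) : q ∈ Own a := by
  obtain ⟨k, hk⟩ := exists_nat_one_div_lt hρ
  simp only [Own, mem_iUnion, mem_iInter, mem_ofPred_eq]
  exact ⟨k, M, fun i hi hd => h i hi (hd.trans hk.le)⟩

end Pool.Agent.H95.NN
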