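import Mathlib

/-!
The flat torus, its uniform distribution, and the online nearest neighbour tree.
-/

open MeasureTheory

namespace Pool.Agent.H95.NN

/-- The flat torus `ℝ^d / (L ℤ)^d` with the metric induced by the Euclidean metric: `d` copies of
the circle `ℝ / L ℤ`, the distance being the square root of the sum of the squares of the
distances of the coordinates. -/
abbrev Torus (d : ℕ) (L : ℝ) : Type := PiLp 2 (fun _ : Fin d => AddCircle L)

/-- The uniform distribution on the torus: the coordinates are independent and uniformly
distributed on the circle `ℝ / L ℤ`. -/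
noncomputable def unif (d : ℕ) (L : ℝ) [Fact (0 < L)] : Measure (Torus d L) :=
  (Measure.pi (fun _ : Fin d => (AddCircle.haarAddCircle : Measure (AddCircle L)))).map
    (WithLp.toLp 2)

/-- The vertex `v_i` attaches to the vertex `v_j`: `j < i` and `p_j` is closest to `p_i` among the
earlier positions (if several earlier positions are equally close, `v_j` is the oldest of them). -/
def Attaches {X : Type*} [Dist X] {n : ℕ} (p : Fin n → X) (i j : Fin n) : Prop :=
  j < i ∧ (∀ l < i, dist (p i) (p j) ≤ dist (p i) (p l)) ∧
    ∀ l < j, dist (p i) (p j) < dist (p i) (p l)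

/-- The graph with one edge from every `v_i`, `i ≥ 1`, to its nearest earlier vertex. -/
def nnTree {X : Type*} [Dist X] {n : ℕ} (p : Fin n → X) : SimpleGraph (Fin n) :=
  SimpleGraph.fromRel (Attaches p)

end Pool.Agent.H95.NN
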