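import Pool.Agent.H95.NN.Torus

/-!
The success probability of the rule.
-/

open MeasureTheory Set Metric ProbabilityTheory

namespace Pool.Agent.H95.NN

section Abstract

variable {X : Type*} [PseudoMetricSpace X] [MeasurableSpace X] [OpensMeasurableSpace X]
  [SecondCountableTopology X]

/-- The rule succeeds with high probability, uniformly in `n`. -/
theorem abstract_success {μ : Measure X} [IsProbabilityMeasure μ] {d : ℕ} {c C : ℝ}
    (hR : Reg μ d c C) {ε : ℝ} (hε : 0 < ε) :
    ∃ (K : ℕ) (δ : ℝ), ∀ (n : ℕ) (hn : 0 < n), 1 - ε ≤ (Pr μ).real {q : ℕ → X |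
      (⟨0, hn⟩ : Fin n) ∈ central δ (nnTree (fun i : Fin n => q i)) ∧
        (central δ (nnTree (fun i : Fin n => q i))).card ≤ K} := by
  have hε3 : 0 < ε / 3 := by linarith
  obtain ⟨K0, hK0⟩ := macro_sides hR (a := 0) (by norm_num) hε3
  obtain ⟨K1, hK1⟩ := macro_sides hR (a := 1) (by norm_num) hε3
  set K' := max K0 K1 with hK'
  have hδ : (0 : ℝ) < 1 / (2 * ((K' : ℝ) + 1)) := by positivity
  obtain ⟨K, hK, hsmall⟩ := small_subtrees hR hδ hε3
  refine ⟨K, 1 / (2 * ((K' : ℝ) + 1)), fun n hn => ?_⟩
  set G : Set (ℕ → X) := {q : ℕ → X |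
      (⟨0, hn⟩ : Fin n) ∈ central (1 / (2 * ((K' : ℝ) + 1))) (nnTree (fun i : Fin n => q i)) ∧
        (central (1 / (2 * ((K' : ℝ) + 1))) (nnTree (fun i : Fin n => q i))).card ≤ K} with hG
  have hcov : (univ : Set (ℕ → X)) ⊆ G ∪ (({q : ℕ → X | ¬ ∀ n : ℕ, 2 ≤ n → (n : ℝ) ≤
      (K0 + 1) * ccount q 0 n} ∪ {q : ℕ → X | ¬ ∀ n : ℕ, 2 ≤ n → (n : ℝ) ≤
      (K1 + 1) * ccount q 1 n}) ∪ {q : ℕ → X | ∃ t, K ≤ t ∧ t < n ∧
      1 / (2 * ((K' : ℝ) + 1)) * n < dcount q t n}) := by
    intro q _
    by_cases h0 : ∀ n : ℕ, 2 ≤ n → (n : ℝ) ≤ (K0 + 1) * ccount q 0 n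
    swap
    · exact Or.inr (Or.inl (Or.inl h0))
    by_cases h1 : ∀ n : ℕ, 2 ≤ n → (n : ℝ) ≤ (K1 + 1) * ccount q 1 n
    swap
    · exact Or.inr (Or.inl (Or.inr h1))
    by_cases h2 : ∃ t, K ≤ t ∧ t < n ∧ 1 / (2 * ((K' : ℝ) + 1)) * n < dcount q t n
    · exact Or.inr (Or.inr h2)
    · refine Or.inl (central_spec q hK (K' := K') ?_ hn h2 ?_)
      · refine one_div_lt_one_div_of_lt (by positivity) ?_
        have : (0 : ℝ) ≤ K' := Nat.cast_nonneg _
        linarith
      · intro a ha m hm
        have hK0' : (K0 : ℝ) ≤ K' := by exact_mod_cast le_max_left K0 K1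
        have hK1' : (K1 : ℝ) ≤ K' := by exact_mod_cast le_max_right K0 K1
        rcases Nat.lt_or_ge a 1 with h | h
        · obtain rfl : a = 0 := by omega
          refine (h0 m hm).trans ?_
          gcongr
        · obtain rfl : a = 1 := by omega
          refine (h1 m hm).trans ?_
          gcongr
  have h1 : (1 : ℝ) ≤ (Pr μ).real G + ((ε / 3 + ε / 3) + ε / 3) := by
    calc (1 : ℝ) = (Pr μ).real univ := by simp
      _ ≤ _ := measureReal_mono hcov (by finiteness)
      _ ≤ _ := measureReal_union_le _ _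
      _ ≤ (Pr μ).real G + ((ε / 3 + ε / 3) + ε / 3) := by
          refine add_le_add le_rfl ((measureReal_union_le _ _).trans ?_)
          exact add_le_add ((measureReal_union_le _ _).trans (add_le_add hK0 hK1)) (hsmall n)
  linarith

end Abstract

lemma nnTree_congr {X Y : Type*} [Dist X] [Dist Y] {n : ℕ} {p : Fin n → X} {p' : Fin n → Y} {L : ℝ}
    (hL : 0 < L) (h : ∀ i j, dist (p' i) (p' j) = L * dist (p i) (p j)) :
    nnTree p' = nnTree p := by
  have : Attaches p' = Attaches p := by
    ext i j
    simp only [Attaches, h, mul_le_mul_iff_right₀ hL, mul_lt_mul_iff_right₀ hL]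
  rw [nnTree, nnTree, this]

section Finite

variable {X : Type*} [PseudoMetricSpace X] [MeasurableSpace X] [OpensMeasurableSpace X]
  [SecondCountableTopology X] {n : ℕ}

/-- Events described by the shape of the labelled tree are measurable. -/
lemma measurableSet_tree (S : Set (SimpleGraph (Fin n))) :
    MeasurableSet {p : Fin n → X | nnTree p ∈ S} := by
  have hA : ∀ i j : Fin n, MeasurableSet {p : Fin n → X | Attaches p i j} := by
    intro i j
    have : {p : Fin n → X | Attaches p i j} = {p | j < i} ∩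
        ((⋂ l : Fin n, {p | l < i → dist (p i) (p j) ≤ dist (p i) (p l)}) ∩
        ⋂ l : Fin n, {p | l < j → dist (p i) (p j) < dist (p i) (p l)}) := by
      ext p
      simp [Attaches]
    rw [this]
    have hd : ∀ a b : Fin n, Measurable (fun p : Fin n → X => dist (p a) (p b)) := fun a b =>
      (measurable_pi_apply a).dist (measurable_pi_apply b)
    refine (MeasurableSet.const _).inter (MeasurableSet.inter (MeasurableSet.iInter fun l => ?_)
      (MeasurableSet.iInter fun l => ?_))
    · by_cases h : l < i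
      · simp only [h, true_imp_iff]; exact measurableSet_le (hd _ _) (hd _ _)
      · simp [h]
    · by_cases h : l < j
      · simp only [h, true_imp_iff]; exact measurableSet_lt (hd _ _) (hd _ _)
      · simp [h]
  have hm : Measurable (fun (p : Fin n → X) (ij : Fin n × Fin n) => Attaches p ij.1 ij.2) := by
    rw [measurable_pi_iff]
    rintro ⟨i, j⟩
    exact measurableSet_setOfPred.1 (hA i j)
  have hset : {p : Fin n → X | nnTree p ∈ S} =
      (fun (p : Fin n → X) (ij : Fin n × Fin n) => Attaches p ij.1 ij.2) ⁻¹'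
        {r | SimpleGraph.fromRel (fun i j => r (i, j)) ∈ S} := rfl
  rw [hset]
  exact hm (Set.to_countable _).measurableSet

end Finite

/-- Transfer from the i.i.d. sequence in the unit torus to `n` points in the torus of side `L`. -/
lemma transfer {d n : ℕ} (L : ℝ) [hL : Fact (0 < L)] {Ω : Type*} [MeasurableSpace Ω]
    (P : Measure Ω) [IsProbabilityMeasure P] (p : Fin n → Ω → Torus d L)
    (hpm : ∀ i, Measurable (p i)) (hpl : ∀ i, P.map (p i) = unif d L) (hind : iIndepFun p P)
    (S : Set (SimpleGraph (Fin n))) :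
    P {ω | nnTree (fun i => p i ω) ∈ S} =
      Pr (unif d 1) {q : ℕ → Torus d 1 | nnTree (fun i : Fin n => q i) ∈ S} := by
  have h1 : P.map (fun ω i => p i ω) = Measure.pi (fun _ : Fin n => unif d L) := by
    rw [(iIndepFun_iff_map_fun_eq_pi_map (fun i => (hpm i).aemeasurable)).1 hind]
    simp only [hpl]
  have h2 : (Pr (unif d 1)).map (fun q (i : Fin n) => scT L d (q i)) =
      Measure.pi (fun _ : Fin n => unif d L) := by
    have hm : Measurable (fun (q : ℕ → Torus d 1) (i : Fin n) => scT L d (q i)) := by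
      rw [measurable_pi_iff]
      intro i
      exact (measurable_scT L d).comp (measurable_pi_apply _)
    refine (Measure.pi_eq fun t ht => ?_).symm
    rw [Measure.map_apply hm (MeasurableSet.univ_pi ht)]
    classical
    have h3 : (fun (q : ℕ → Torus d 1) (i : Fin n) => scT L d (q i)) ⁻¹' (Set.univ.pi t) =
        Set.pi (↑(Finset.range n) : Set ℕ)
          (fun k => if hk : k < n then (scT L d) ⁻¹' (t ⟨k, hk⟩) else Set.univ) := by
      ext q
      simp only [mem_preimage, Set.mem_pi, mem_univ, true_imp_iff, Finset.mem_coe,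
        Finset.mem_range]
      constructor
      · intro h k hk
        rw [dif_pos hk]
        exact h ⟨k, hk⟩
      · intro h i
        have := h i i.2
        rw [dif_pos i.2] at this
        exact this
    rw [h3, Measure.infinitePi_pi]
    · rw [Finset.prod_range]
      refine Finset.prod_congr rfl fun i _ => ?_
      rw [dif_pos i.2, ← Measure.map_apply (measurable_scT L d) (ht _), map_scT]
    · intro k hk
      rw [Finset.mem_range] at hk
      rw [dif_pos hk]
      exact measurable_scT L d (ht _)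
  have hS : MeasurableSet {p : Fin n → Torus d L | nnTree p ∈ S} := measurableSet_tree S
  have h4 : P {ω | nnTree (fun i => p i ω) ∈ S} =
      P.map (fun ω i => p i ω) {p : Fin n → Torus d L | nnTree p ∈ S} := by
    rw [Measure.map_apply (by fun_prop) hS]
    rfl
  have hm : Measurable (fun (q : ℕ → Torus d 1) (i : Fin n) => scT L d (q i)) := by
    rw [measurable_pi_iff]
    intro i
    exact (measurable_scT L d).comp (measurable_pi_apply _)
  rw [h4, h1, ← h2, Measure.map_apply hm hS]
  congr 1
  ext q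
  simp only [mem_preimage, mem_ofPred_eq]
  rw [nnTree_congr (p := fun i : Fin n => q i) hL.out (fun i j => dist_scT L d _ _)]

end Pool.Agent.H95.NN
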