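import Pool.Agent.H95.NN.Macro
import Pool.Agent.H95.NN.Defs

/-!
The root-finding rule and its deterministic analysis.
-/

open Set

namespace Pool.Agent.H95.NN

section Rule

variable {n : ℕ}

/-- `u` can be reached from `w` without visiting `v`. -/
def Avoid (T : SimpleGraph (Fin n)) (v w u : Fin n) : Prop := ∃ p : T.Walk w u, v ∉ p.support

open Classical in
/-- The vertices all of whose branches have fewer than `(1 - δ) n` vertices. -/
noncomputable def central (δ : ℝ) (T : SimpleGraph (Fin n)) : Finset (Fin n) :=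
  Finset.univ.filter fun v => ∀ w, w ≠ v →
    ((Finset.univ.filter fun u => Avoid T v w u).card : ℝ) < (1 - δ) * n

open Classical in
/-- The rule. -/
noncomputable def rule (δ : ℝ) (K : ℕ) (n : ℕ) (T : SimpleGraph (Fin n)) : Finset (Fin n) :=
  if (central δ T).card ≤ K then central δ T else ∅

lemma rule_card (δ : ℝ) (K : ℕ) (n : ℕ) (T : SimpleGraph (Fin n)) :
    (rule δ K n T).card ≤ K := by
  classical
  unfold rule
  split_ifs with h
  · exact h
  · simp

lemma avoid_iso {T T' : SimpleGraph (Fin n)} (e : T ≃g T') {v w u : Fin n} (h : Avoid T v w u) :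
    Avoid T' (e v) (e w) (e u) := by
  obtain ⟨p, hp⟩ := h
  refine ⟨p.map e.toHom, ?_⟩
  intro h
  have h' : e v ∈ (p.map e.toHom).support := h
  rw [SimpleGraph.Walk.support_map, List.mem_map] at h'
  obtain ⟨x, hx, hxv⟩ := h'
  have : x = v := e.injective hxv
  rw [this] at hx
  exact hp hx

lemma avoid_map (T : SimpleGraph (Fin n)) (σ : Equiv.Perm (Fin n)) (v w u : Fin n) :
    Avoid (T.map σ) (σ v) (σ w) (σ u) ↔ Avoid T v w u := by
  constructor
  · intro h
    have h1 := avoid_iso (SimpleGraph.Iso.map σ T).symm h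
    simpa using h1
  · intro h
    exact avoid_iso (SimpleGraph.Iso.map σ T) h

lemma central_map (δ : ℝ) (T : SimpleGraph (Fin n)) (σ : Equiv.Perm (Fin n)) :
    central δ (T.map σ) = (central δ T).map σ.toEmbedding := by
  classical
  have hcard : ∀ v w, (Finset.univ.filter fun u => Avoid (T.map σ) (σ v) (σ w) u).card =
      (Finset.univ.filter fun u => Avoid T v w u).card := by
    intro v w
    have : (Finset.univ.filter fun u => Avoid (T.map σ) (σ v) (σ w) u) =
        (Finset.univ.filter fun u => Avoid T v w u).map σ.toEmbedding := by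
      ext u
      rw [Finset.mem_filter, Finset.mem_map]
      constructor
      · rintro ⟨-, h⟩
        refine ⟨σ.symm u, ?_, by simp⟩
        rw [Finset.mem_filter, ← avoid_map T σ]
        exact ⟨Finset.mem_univ _, by simpa using h⟩
      · rintro ⟨u', hu', rfl⟩
        rw [Finset.mem_filter] at hu'
        exact ⟨Finset.mem_univ _, (avoid_map T σ _ _ _).2 hu'.2⟩
    rw [this, Finset.card_map]
  ext v
  obtain ⟨v, rfl⟩ := σ.surjective v
  rw [central, central, Finset.mem_filter, Finset.mem_map]
  constructor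
  · rintro ⟨-, h⟩
    refine ⟨v, ?_, rfl⟩
    rw [Finset.mem_filter]
    refine ⟨Finset.mem_univ _, fun w hw => ?_⟩
    have := h (σ w) (fun h => hw (σ.injective h))
    rwa [hcard] at this
  · rintro ⟨v', hv', hvv⟩
    rw [Finset.mem_filter] at hv'
    refine ⟨Finset.mem_univ _, fun w hw => ?_⟩
    rw [σ.injective hvv] at hv'
    obtain ⟨w, rfl⟩ := σ.surjective w
    rw [hcard]
    exact hv'.2 w (fun h => hw (by rw [h]))

lemma mem_rule_map {δ : ℝ} {K : ℕ} (T : SimpleGraph (Fin n)) (σ : Equiv.Perm (Fin n)) {v : Fin n}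
    (h1 : v ∈ central δ T) (h2 : (central δ T).card ≤ K) :
    σ v ∈ rule δ K n (T.map σ) := by
  unfold rule
  rw [central_map, Finset.card_map, if_pos h2]
  exact Finset.mem_map_of_mem _ h1

end Rule

section Tree

variable {X : Type*} [PseudoMetricSpace X] {n : ℕ}

lemma attaches_iff (q : ℕ → X) (i j : Fin n) :
    Attaches (fun i : Fin n => q i) i j ↔ 0 < (i : ℕ) ∧ par q i = j := by
  constructor
  · rintro ⟨h1, h2, h3⟩
    have hi : 0 < (i : ℕ) := by
      have : (j : ℕ) < i := h1
      omega
    refine ⟨hi, ?_⟩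
    have hmem := par_mem q hi
    refine le_antisymm (Nat.sInf_le ⟨h1, fun l hl => h2 ⟨l, hl.trans i.2⟩ hl⟩) ?_
    by_contra hcon
    push Not at hcon
    have h4 := h3 ⟨par q i, hcon.trans j.2⟩ hcon
    have h5 := hmem.2 j h1
    simp only at h4
    linarith
  · rintro ⟨hi, hj⟩
    have hmem := par_mem q hi
    refine ⟨?_, fun l hl => ?_, fun l hl => ?_⟩
    · show (j : ℕ) < i
      rw [← hj]; exact hmem.1
    · have := hmem.2 l hl
      rwa [hj] at this
    · by_contra hcon
      push Not at hcon
      have hl' : (l : ℕ) < j := hl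
      have h1 : (l : ℕ) ∈ {j | j < (i : ℕ) ∧ ∀ l < (i : ℕ), dist (q i) (q j) ≤ dist (q i) (q l)} := by
        refine ⟨?_, fun l' hl'' => hcon.trans ?_⟩
        · have : (j : ℕ) < i := by rw [← hj]; exact hmem.1
          omega
        · have := hmem.2 l' hl''
          rwa [hj] at this
      have h2 : par q i ≤ l := Nat.sInf_le h1
      omega

lemma adj_par (q : ℕ → X) {i : Fin n} (hi : 0 < (i : ℕ)) :
    (nnTree (fun i : Fin n => q i)).Adj i ⟨par q i, (par_lt q hi).trans i.2⟩ := by
  rw [nnTree, SimpleGraph.fromRel_adj]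
  refine ⟨?_, Or.inl ((attaches_iff q _ _).2 ⟨hi, rfl⟩)⟩
  intro h
  have h1 : (i : ℕ) = par q i := congrArg Fin.val h
  have := par_lt q hi
  omega

/-- Non-descendants of `t` are connected to the root without visiting `t`. -/
lemma avoid_of_not_desc (q : ℕ → X) {t : Fin n} (ht : 0 < (t : ℕ)) (r : Fin n) (hr : (r : ℕ) = 0) :
    ∀ i : ℕ, ∀ hi : i < n, ¬ Desc q t i →
      Avoid (nnTree (fun i : Fin n => q i)) t r ⟨i, hi⟩ := by
  intro i
  induction i using Nat.strong_induction_on with
  | _ i ih =>
    intro hi hnd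
    by_cases h0 : i = 0
    · subst h0
      have : r = ⟨0, hi⟩ := Fin.ext hr
      subst this
      refine ⟨SimpleGraph.Walk.nil, ?_⟩
      simp only [SimpleGraph.Walk.support_nil, List.mem_singleton]
      intro h
      rw [h] at ht
      simp at ht
    · have hpos : 0 < i := by omega
      have hlt := par_lt q hpos
      have hnd' : ¬ Desc q t (par q i) := by
        rintro ⟨m, hm⟩
        exact hnd ⟨m + 1, by rwa [Function.iterate_succ_apply]⟩
      obtain ⟨p, hp⟩ := ih (par q i) hlt (hlt.trans hi) hnd'
      have hadj := (adj_par (n := n) q (i := ⟨i, hi⟩) hpos).symm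
      refine ⟨p.concat hadj, ?_⟩
      rw [SimpleGraph.Walk.support_concat]
      intro h
      rw [List.mem_append, List.mem_singleton] at h
      rcases h with h | h
      · exact hp h
      · exact hnd ⟨0, by rw [h]; rfl⟩

/-- The side is constant along walks avoiding the root. -/
lemma cl_const (q : ℕ → X) {r w u : Fin n} (hr : (r : ℕ) = 0)
    (h : Avoid (nnTree (fun i : Fin n => q i)) r w u) : cl q w = cl q u ∧ (u : ℕ) ≠ 0 := by
  have key : ∀ x y : Fin n, (nnTree (fun i : Fin n => q i)).Adj x y → (x : ℕ) ≠ 0 → (y : ℕ) ≠ 0 →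
      cl q x = cl q y := by
    intro x y hxy hx hy
    rw [nnTree, SimpleGraph.fromRel_adj] at hxy
    obtain ⟨_, h | h⟩ := hxy
    · obtain ⟨h1, h2⟩ := (attaches_iff q _ _).1 h
      by_cases hx1 : (x : ℕ) = 1
      · rw [hx1, par_one] at h2
        exact absurd h2.symm hy
      · rw [cl_ge (by omega), h2]
    · obtain ⟨h1, h2⟩ := (attaches_iff q _ _).1 h
      by_cases hy1 : (y : ℕ) = 1
      · rw [hy1, par_one] at h2
        exact absurd h2.symm hx
      · rw [cl_ge (q := q) (i := y) (by omega), h2]
  obtain ⟨p, hp⟩ := h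
  induction p with
  | nil =>
    simp only [SimpleGraph.Walk.support_nil, List.mem_singleton] at hp
    exact ⟨rfl, fun h => hp (Fin.ext (hr.trans h.symm))⟩
  | @cons x y z hxy p ih =>
    simp only [SimpleGraph.Walk.support_cons, List.mem_cons, not_or] at hp
    obtain ⟨h1, h2⟩ := ih hp.2
    have hx : (x : ℕ) ≠ 0 := fun h => hp.1 (Fin.ext (hr.trans h.symm))
    have hy : (y : ℕ) ≠ 0 := fun h => hp.2 (by
      have : r = y := Fin.ext (hr.trans h.symm)
      rw [this]; exact SimpleGraph.Walk.start_mem_support p)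
    exact ⟨(key x y hxy hx hy).trans h1, h2⟩

/-- Deterministic analysis of the rule. -/
theorem central_spec (q : ℕ → X) {K K' : ℕ} {δ : ℝ} (hK : 0 < K) (hδ : δ < 1 / ((K' : ℝ) + 1))
    (hn : 0 < n) (hA : ¬ ∃ t, K ≤ t ∧ t < n ∧ δ * n < dcount q t n)
    (hB : ∀ a < 2, ∀ n : ℕ, 2 ≤ n → (n : ℝ) ≤ (K' + 1) * ccount q a n) :
    (⟨0, hn⟩ : Fin n) ∈ central δ (nnTree (fun i : Fin n => q i)) ∧
      (central δ (nnTree (fun i : Fin n => q i))).card ≤ K := by
  classical
  have hn' : (0 : ℝ) < n := by exact_mod_cast hn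
  constructor
  · simp only [central, Finset.mem_filter, Finset.mem_univ, true_and]
    intro w hw
    have hn2 : 2 ≤ n := by
      have hw0 : (w : ℕ) ≠ 0 := fun h => hw (Fin.ext h)
      have := w.2
      omega
    have hsub : (Finset.univ.filter fun u => Avoid (nnTree (fun i : Fin n => q i)) ⟨0, hn⟩ w u).map
        Fin.valEmbedding ⊆ (Finset.range n).filter (fun i => cl q i = cl q w) := by
      intro i hi
      rw [Finset.mem_map] at hi
      obtain ⟨u, hu, rfl⟩ := hi
      rw [Finset.mem_filter] at hu ⊢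
      exact ⟨Finset.mem_range.2 u.2, (cl_const q (r := ⟨0, hn⟩) rfl hu.2).1.symm⟩
    have hcard := Finset.card_le_card hsub
    rw [Finset.card_map] at hcard
    have h1 : ((Finset.univ.filter fun u =>
        Avoid (nnTree (fun i : Fin n => q i)) ⟨0, hn⟩ w u).card : ℝ) ≤
        ccount q (cl q w) n := by exact_mod_cast hcard
    have hw2 := cl_lt_two q w
    have h2 : (ccount q 0 n : ℝ) + ccount q 1 n = n := by exact_mod_cast ccount_add q n
    have h0 := hB 0 (by norm_num) n hn2
    have h3 := hB 1 (by norm_num) n hn2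
    have hK0 : (0 : ℝ) < (K' : ℝ) + 1 := by positivity
    have h4 : δ * n < 1 / ((K' : ℝ) + 1) * n := by gcongr
    have h5 : ∀ b : ℝ, (n : ℝ) ≤ (K' + 1) * b → 1 / ((K' : ℝ) + 1) * n ≤ b := by
      intro b hb
      rw [div_mul_eq_mul_div, one_mul, div_le_iff₀ hK0]
      linarith
    have h6 := h5 _ h0
    have h7 := h5 _ h3
    rcases Nat.lt_or_ge (cl q w) 1 with hc | hc
    · have : cl q w = 0 := by omega
      rw [this] at h1
      linarith
    · have : cl q w = 1 := by omega
      rw [this] at h1
      linarith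
  · have hsub : (central δ (nnTree (fun i : Fin n => q i))).map Fin.valEmbedding ⊆
        Finset.range K := by
      intro t ht
      rw [Finset.mem_map] at ht
      obtain ⟨t, ht, rfl⟩ := ht
      rw [Finset.mem_range]
      by_contra hcon
      push Not at hcon
      have hcon' : K ≤ (t : ℕ) := hcon
      simp only [central, Finset.mem_filter, Finset.mem_univ, true_and] at ht
      have ht0 : 0 < (t : ℕ) := by omega
      have h1 := ht ⟨0, hn⟩ (fun h => by rw [← h] at ht0; simp at ht0)
      have h2 : (dcount q t n : ℝ) ≤ δ * n := by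
        by_contra hcon2
        push Not at hcon2
        exact hA ⟨t, hcon', t.2, hcon2⟩
      have h3 : (Finset.range n).filter (fun i => ¬ Desc q t i) ⊆
          (Finset.univ.filter fun u =>
            Avoid (nnTree (fun i : Fin n => q i)) t ⟨0, hn⟩ u).map Fin.valEmbedding := by
        intro i hi
        rw [Finset.mem_filter, Finset.mem_range] at hi
        rw [Finset.mem_map]
        refine ⟨⟨i, hi.1⟩, ?_, rfl⟩
        rw [Finset.mem_filter]
        exact ⟨Finset.mem_univ _, avoid_of_not_desc q ht0 ⟨0, hn⟩ rfl i hi.1 hi.2⟩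
      have h4 := Finset.card_le_card h3
      rw [Finset.card_map] at h4
      have h5 : dcount q t n + ((Finset.range n).filter (fun i => ¬ Desc q t i)).card = n := by
        rw [dcount, Finset.card_filter_add_card_filter_not, Finset.card_range]
      have h6 : (dcount q t n : ℝ) + ((Finset.range n).filter (fun i => ¬ Desc q t i)).card = n := by
        exact_mod_cast h5
      have h7 : (((Finset.range n).filter (fun i => ¬ Desc q t i)).card : ℝ) ≤
          ((Finset.univ.filter fun u =>
            Avoid (nnTree (fun i : Fin n => q i)) t ⟨0, hn⟩ u).card : ℝ) := by exact_mod_cast h4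
      linarith
    have := Finset.card_le_card hsub
    rwa [Finset.card_map, Finset.card_range] at this

end Tree

end Pool.Agent.H95.NN
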