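import Mathlib

/-!
Elementary numerical estimates for the scale parameters.
-/

namespace Pool.Agent.H95.NN

open Finset

/-- The exponent `2 d (d + 1)`. -/
abbrev DD (d : ℕ) : ℕ := 2 * d * (d + 1)

lemma num_exp (d : ℕ) (hd : 1 ≤ d) {κ u : ℝ} (hκ : 0 < κ) (hu : 1 ≤ u) :
    u ^ DD d * Real.exp (-(κ * u ^ d)) ≤ (2 * d + 3).factorial / κ ^ (2 * d + 3) / u := by
  have hu0 : 0 < u := by linarith
  have hx : 0 < κ * u ^ d := by positivity
  have h1 := Real.pow_div_factorial_le_exp (κ * u ^ d) hx.le (2 * d + 3)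
  have hfac : (0 : ℝ) < (2 * d + 3).factorial := by positivity
  have h2 : Real.exp (-(κ * u ^ d)) ≤ (2 * d + 3).factorial / (κ * u ^ d) ^ (2 * d + 3) := by
    rw [Real.exp_neg, inv_le_comm₀ (Real.exp_pos _) (by positivity), inv_div]
    exact h1
  have h3 : (κ * u ^ d) ^ (2 * d + 3) = κ ^ (2 * d + 3) * (u ^ DD d * u ^ d) := by
    rw [mul_pow, ← pow_mul, ← pow_add]
    congr 2
    simp only [DD]
    ring
  have h4 : u ≤ u ^ d := le_self_pow₀ hu (by omega)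
  calc u ^ DD d * Real.exp (-(κ * u ^ d))
      ≤ u ^ DD d * ((2 * d + 3).factorial / (κ * u ^ d) ^ (2 * d + 3)) := by gcongr
    _ = (2 * d + 3).factorial / κ ^ (2 * d + 3) / u ^ d := by
        rw [h3]; field_simp
    _ ≤ (2 * d + 3).factorial / κ ^ (2 * d + 3) / u := by gcongr

lemma num_fact {y : ℝ} (hy : 0 ≤ y) {s : ℕ} (hs : Real.exp 2 * y ≤ s) :
    y ^ s / s.factorial ≤ Real.exp (-(s : ℝ)) := by
  have h1 := Real.pow_div_factorial_le_exp (Real.exp 2 * y) (by positivity) s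
  have h2 : Real.exp (Real.exp 2 * y) ≤ Real.exp s := Real.exp_le_exp.2 hs
  have h3 : (Real.exp 2) ^ s = Real.exp (2 * s) := by rw [← Real.exp_nat_mul]; ring_nf
  rw [mul_pow, h3, mul_div_assoc] at h1
  have h4 : Real.exp (-(s : ℝ)) = Real.exp s / Real.exp (2 * s) := by
    rw [← Real.exp_sub]; ring_nf
  rw [h4, le_div_iff₀ (Real.exp_pos _), mul_comm]
  linarith

/-- The ratio `2 ^ (1 / (2 d (d + 1)))`. -/
noncomputable def th (d : ℕ) : ℝ := (2 : ℝ) ^ (((DD d : ℕ) : ℝ)⁻¹)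

lemma DD_pos {d : ℕ} (hd : 1 ≤ d) : 0 < DD d := by simp only [DD]; positivity

lemma th_pow {d : ℕ} (hd : 1 ≤ d) : th d ^ DD d = 2 :=
  Real.rpow_inv_natCast_pow (by norm_num) (DD_pos hd).ne'

lemma one_lt_th {d : ℕ} (hd : 1 ≤ d) : 1 < th d :=
  Real.one_lt_rpow (by norm_num) (by have := DD_pos hd; positivity)

/-- The scale parameters `u_k = u_0 θ^k`. -/
noncomputable def uu (d : ℕ) (u0 : ℝ) (k : ℕ) : ℝ := u0 * th d ^ k

lemma one_le_uu {d : ℕ} (hd : 1 ≤ d) {u0 : ℝ} (hu : 1 ≤ u0) (k : ℕ) : 1 ≤ uu d u0 k :=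
  one_le_mul_of_one_le_of_one_le hu (one_le_pow₀ (one_lt_th hd).le)

lemma uu_pow {d : ℕ} (hd : 1 ≤ d) (u0 : ℝ) (k : ℕ) : uu d u0 k ^ DD d = 2 ^ k * u0 ^ DD d := by
  rw [uu, mul_pow, ← pow_mul (th d), mul_comm k, pow_mul (th d), th_pow hd]; ring

lemma uu_zero (d : ℕ) (u0 : ℝ) : uu d u0 0 = u0 := by simp [uu]

/-- The sum of the geometric series. -/
noncomputable def gs (d : ℕ) : ℝ := (1 - (th d)⁻¹)⁻¹

lemma gs_pos {d : ℕ} (hd : 1 ≤ d) : 0 < gs d := by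
  have := one_lt_th hd
  have h2 : (th d)⁻¹ < 1 := inv_lt_one_of_one_lt₀ this
  exact inv_pos.2 (by linarith)

lemma hasSum_uu {d : ℕ} (hd : 1 ≤ d) (u0 : ℝ) (B : ℝ) :
    HasSum (fun k => B / uu d u0 k) (B * gs d / u0) := by
  have h1 := one_lt_th hd
  have h2 : (th d)⁻¹ < 1 := inv_lt_one_of_one_lt₀ h1
  have h3 := (hasSum_geometric_of_lt_one (inv_nonneg.2 (by linarith)) h2).mul_left (B / u0)
  have e1 : (fun k => B / uu d u0 k) = fun k => B / u0 * (th d)⁻¹ ^ k := by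
    ext k
    simp only [uu, inv_pow]
    rw [div_mul_eq_div_div, div_eq_mul_inv (B / u0)]
  have e2 : B * gs d / u0 = B / u0 * (1 - (th d)⁻¹)⁻¹ := by simp only [gs]; ring
  rw [e1, e2]
  exact h3

lemma sum_uu_le {d : ℕ} (hd : 1 ≤ d) {u0 : ℝ} (hu : 1 ≤ u0) {B : ℝ} (hB : 0 ≤ B) (k : ℕ) :
    ∑ l ∈ range k, B / uu d u0 l ≤ B * gs d / u0 := by
  refine sum_le_hasSum _ (fun l _ => ?_) (hasSum_uu hd u0 B)
  have := one_le_uu hd hu l
  positivity

end Pool.Agent.H95.NN
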