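import Pool.Agent.H95.NN.Net
import Pool.Agent.H95.NN.Num

/-!
The local lemma: with high probability all coverings succeed at all dyadic times and no
long descending path with short steps occurs.
-/

open MeasureTheory Set Metric

namespace Pool.Agent.H95.NN

lemma u_split (d : ℕ) (u : ℝ) : u ^ DD d = (u ^ (2 * d + 1)) ^ d * u ^ d := by
  rw [← pow_mul, ← pow_add]
  congr 1
  simp only [DD]; ring

lemma cov_num {d : ℕ} {u R c C1 card : ℝ} (hu : 1 ≤ u) (hR : 0 < R) (hc : 0 < c) (hC1 : 0 < C1)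
    {N : ℕ} (hcard : card * (R / u ^ (2 * d + 1)) ^ d ≤ C1 * R ^ d) (_hcard0 : 0 ≤ card)
    (hN : u ^ DD d ≤ 2 * N * R ^ d) (h1 : c * (R / u ^ (2 * d + 1)) ^ d ≤ 1) :
    card * (1 - c * (R / u ^ (2 * d + 1)) ^ d) ^ N ≤
      C1 * (u ^ DD d * Real.exp (-(c / 2 * u ^ d))) := by
  have hu0 : 0 < u := by linarith
  have hd1 : 1 ≤ u ^ d := one_le_pow₀ hu
  rw [div_pow] at hcard h1 ⊢
  have hcard' : card ≤ C1 * (u ^ (2 * d + 1)) ^ d := by
    rw [mul_div_assoc', div_le_iff₀ (by positivity)] at hcard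
    have hRd : 0 < R ^ d := by positivity
    nlinarith
  have hx : (1 - c * (R ^ d / (u ^ (2 * d + 1)) ^ d)) ^ N ≤ Real.exp (-(c / 2 * u ^ d)) := by
    calc (1 - c * (R ^ d / (u ^ (2 * d + 1)) ^ d)) ^ N
        ≤ (Real.exp (-(c * (R ^ d / (u ^ (2 * d + 1)) ^ d)))) ^ N :=
          pow_le_pow_left₀ (by linarith) (Real.one_sub_le_exp_neg _) N
      _ = Real.exp (-(N * (c * (R ^ d / (u ^ (2 * d + 1)) ^ d)))) := by
          rw [← Real.exp_nat_mul]; ring_nf
      _ ≤ Real.exp (-(c / 2 * u ^ d)) := by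
          rw [Real.exp_le_exp, neg_le_neg_iff]
          have h2 : u ^ d ≤ 2 * N * R ^ d / (u ^ (2 * d + 1)) ^ d := by
            rw [le_div_iff₀ (by positivity), mul_comm]
            rw [u_split] at hN
            exact hN
          calc c / 2 * u ^ d ≤ c / 2 * (2 * N * R ^ d / (u ^ (2 * d + 1)) ^ d) := by gcongr
            _ = N * (c * (R ^ d / (u ^ (2 * d + 1)) ^ d)) := by ring
  calc card * (1 - c * (R ^ d / (u ^ (2 * d + 1)) ^ d)) ^ N
      ≤ (C1 * (u ^ (2 * d + 1)) ^ d) * Real.exp (-(c / 2 * u ^ d)) := by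
        refine mul_le_mul hcard' hx (pow_nonneg (by linarith) _) (by positivity)
    _ ≤ (C1 * u ^ DD d) * Real.exp (-(c / 2 * u ^ d)) := by
        rw [u_split]
        have : (u ^ (2 * d + 1)) ^ d ≤ (u ^ (2 * d + 1)) ^ d * u ^ d :=
          le_mul_of_one_le_right (by positivity) hd1
        gcongr
    _ = C1 * (u ^ DD d * Real.exp (-(c / 2 * u ^ d))) := by ring

lemma path_num {d : ℕ} {u R C C1 mU : ℝ} (hu : 1 ≤ u) (hR : 0 < R) (hC : 1 ≤ C) (hC1 : 0 < C1)
    {N s : ℕ} (hN : N * R ^ d ≤ 2 * u ^ DD d) (hmU : mU ≤ C1 * R ^ d) (hmU0 : 0 ≤ mU)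
    (hs : Real.exp 2 * (C * 2 ^ (d + 1)) * u ^ d ≤ s) :
    mU * (C * (2 * (R / u ^ (2 * d + 1))) ^ d) ^ s * (N.choose (s + 1) : ℝ) ≤
      2 * C1 * (u ^ DD d * Real.exp (-(u ^ d))) := by
  have hu0 : 0 < u := by linarith
  have hv0 : 0 ≤ C * (2 * (R / u ^ (2 * d + 1))) ^ d := by positivity
  have hch : (N.choose (s + 1) : ℝ) ≤ N * ((N : ℝ) ^ s / s.factorial) := by
    calc (N.choose (s + 1) : ℝ) ≤ (N : ℝ) ^ (s + 1) / (s + 1).factorial :=
          Nat.choose_le_pow_div (s + 1) N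
      _ ≤ (N : ℝ) ^ (s + 1) / s.factorial := by
          gcongr
          exact Nat.le_succ s
      _ = N * ((N : ℝ) ^ s / s.factorial) := by rw [pow_succ']; ring
  set v := C * (2 * (R / u ^ (2 * d + 1))) ^ d with hv
  have hvN : v * N ≤ C * 2 ^ (d + 1) * u ^ d := by
    have e : v * N = C * 2 ^ d * (N * R ^ d) / (u ^ (2 * d + 1)) ^ d := by
      rw [hv, mul_pow, div_pow]; ring
    rw [e, div_le_iff₀ (by positivity)]
    calc C * 2 ^ d * (N * R ^ d) ≤ C * 2 ^ d * (2 * u ^ DD d) := by gcongr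
      _ = C * 2 ^ (d + 1) * u ^ d * (u ^ (2 * d + 1)) ^ d := by rw [u_split]; ring
  have hmN : mU * N ≤ 2 * C1 * u ^ DD d := by
    calc mU * N ≤ C1 * R ^ d * N := by gcongr
      _ = C1 * (N * R ^ d) := by ring
      _ ≤ C1 * (2 * u ^ DD d) := by gcongr
      _ = 2 * C1 * u ^ DD d := by ring
  have hy0 : 0 ≤ C * 2 ^ (d + 1) * u ^ d := by positivity
  have hfact := num_fact hy0 (s := s) (by rw [← mul_assoc (Real.exp 2)]; exact hs)
  have hexp : Real.exp (-(s : ℝ)) ≤ Real.exp (-(u ^ d)) := by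
    rw [Real.exp_le_exp, neg_le_neg_iff]
    refine le_trans ?_ hs
    have h1 : (1 : ℝ) ≤ Real.exp 2 := Real.one_le_exp (by norm_num)
    have h2 : (1 : ℝ) ≤ C * 2 ^ (d + 1) :=
      one_le_mul_of_one_le_of_one_le hC (one_le_pow₀ (by norm_num))
    exact le_mul_of_one_le_left (by positivity) (one_le_mul_of_one_le_of_one_le h1 h2)
  calc mU * v ^ s * (N.choose (s + 1) : ℝ)
      ≤ mU * v ^ s * (N * ((N : ℝ) ^ s / s.factorial)) := by gcongr
    _ = (mU * N) * ((v * N) ^ s / s.factorial) := by rw [mul_pow]; ring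
    _ ≤ (2 * C1 * u ^ DD d) * ((C * 2 ^ (d + 1) * u ^ d) ^ s / s.factorial) := by gcongr
    _ ≤ (2 * C1 * u ^ DD d) * Real.exp (-(u ^ d)) := by
        refine mul_le_mul_of_nonneg_left (hfact.trans hexp) (by positivity)
    _ = 2 * C1 * (u ^ DD d * Real.exp (-(u ^ d))) := by ring

variable {X : Type*} [PseudoMetricSpace X] [MeasurableSpace X] [OpensMeasurableSpace X]
  [SecondCountableTopology X]

theorem local_lemma {μ : Measure X} [IsProbabilityMeasure μ] {d : ℕ} {c C C1 : ℝ}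
    (hR : Reg μ d c C) (hC1 : 0 < C1) :
    ∃ Q : ℝ, 0 < Q ∧ ∀ u0 : ℝ, 1 ≤ u0 → ∀ R : ℝ, 0 < R → R ≤ 1 → ∀ U : Set X, MeasurableSet U →
      NetProp U R d C1 → μ.real U ≤ C1 * R ^ d → ∀ Δ : ℕ, u0 ^ DD d ≤ Δ * R ^ d →
      Δ * R ^ d ≤ 2 * u0 ^ DD d →
      ∃ (h : ℕ → ℝ) (s : ℕ → ℕ) (Z : ℕ → Finset X),
        (∀ k, 0 < h k ∧ h k ≤ R) ∧
        (∀ k, ∀ y ∈ U, ∃ z ∈ Z k, dist y z ≤ h k) ∧ (∀ k, ∀ z ∈ Z k, z ∈ U) ∧
        (∀ k, ∑ l ∈ Finset.range k, (s l : ℝ) * (2 * h l) ≤ Q * R / u0) ∧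
        (Pr μ).real (⋃ k, (CovFail Δ (2 ^ (k + 1) * Δ) (Z (k + 1)) (h (k + 1)) ∪
          BlockEv (2 ^ k * Δ) (2 ^ (k + 1) * Δ) (2 * h k) U (s k))) ≤ Q / u0 ∧
        (Z 0).card * (1 - c * (h 0) ^ d) ^ Δ ≤ Q / u0 := by
  have hd := hR.hd
  have hc := hR.hc
  have hC := hR.hC
  set β : ℝ := Real.exp 2 * (C * 2 ^ (d + 1)) with hβ
  have hβ0 : 0 < β := by positivity
  set κ : ℝ := min (c / 2) 1 with hκ
  have hκ0 : 0 < κ := lt_min (by linarith) one_pos
  set F : ℝ := (2 * d + 3).factorial / κ ^ (2 * d + 3) with hF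
  have hF0 : 0 < F := by positivity
  have hgs := gs_pos hd
  refine ⟨3 * C1 * F * gs d + 2 * (β + 1) * gs d + C1 * F, by positivity, ?_⟩
  intro u0 hu0 R hR0 hR1 U hU hnet hmU Δ hΔ1 hΔ2
  set Q : ℝ := 3 * C1 * F * gs d + 2 * (β + 1) * gs d + C1 * F with hQ
  have hu0' : 0 < u0 := by linarith
  have huk : ∀ k, 1 ≤ uu d u0 k := one_le_uu hd hu0
  have huk0 : ∀ k, 0 < uu d u0 k := fun k => by linarith [huk k]
  let h : ℕ → ℝ := fun k => R / uu d u0 k ^ (2 * d + 1)
  have hh : ∀ k, 0 < h k ∧ h k ≤ R := fun k =>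
    ⟨div_pos hR0 (by have := huk0 k; positivity),
      div_le_self hR0.le (one_le_pow₀ (huk k))⟩
  let s : ℕ → ℕ := fun k => ⌈β * uu d u0 k ^ d⌉₊
  choose Z hZ1 hZ2 hZ3 using fun k => hnet (h k) (hh k).1 (hh k).2
  have hch1 : ∀ k, c * h k ^ d ≤ 1 := fun k => by
    have hne : Nonempty X := by
      by_contra hne
      rw [not_nonempty_iff] at hne
      have h1 : μ (univ : Set X) = 1 := measure_univ
      rw [univ_eq_empty_iff.2 hne, measure_empty] at h1
      exact zero_ne_one h1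
    obtain ⟨x⟩ := hne
    exact (hR.lower x (h k) (hh k).1 ((hh k).2.trans hR1)).trans measureReal_le_one
  -- the two bounds at scale `k`
  have hFu : ∀ k, ∀ κ', κ ≤ κ' → uu d u0 k ^ DD d * Real.exp (-(κ' * uu d u0 k ^ d)) ≤
      F / uu d u0 k := by
    intro k κ' hκ'
    refine le_trans ?_ (num_exp d hd hκ0 (huk k))
    have := huk0 k
    gcongr
  have hcov : ∀ k (N : ℕ), uu d u0 k ^ DD d ≤ 2 * N * R ^ d →
      (Z k).card * (1 - c * h k ^ d) ^ N ≤ C1 * F / uu d u0 k := by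
    intro k N hN
    refine (cov_num (huk k) hR0 hc hC1 (hZ3 k) (Nat.cast_nonneg _) hN (hch1 k)).trans ?_
    rw [mul_div_assoc]
    exact mul_le_mul_of_nonneg_left (hFu k _ (min_le_left _ _)) hC1.le
  have hpath : ∀ k, (Pr μ).real (BlockEv (2 ^ k * Δ) (2 ^ (k + 1) * Δ) (2 * h k) U (s k)) ≤
      2 * (C1 * F / uu d u0 k) := by
    intro k
    have hab : 2 ^ k * Δ ≤ 2 ^ (k + 1) * Δ :=
      Nat.mul_le_mul_right _ (Nat.pow_le_pow_right (by norm_num) (Nat.le_succ k))
    have hv0 : 0 ≤ C * (2 * h k) ^ d := by have := (hh k).1; positivity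
    have hv : ∀ x, μ (closedBall x (2 * h k)) ≤ ENNReal.ofReal (C * (2 * h k) ^ d) := by
      intro x
      rw [← ofReal_measureReal]
      exact ENNReal.ofReal_le_ofReal (hR.upper x _ (by have := (hh k).1; positivity))
    have h1 := blockEv_le μ hab (2 * h k) hU hv (s k)
    have hNN : 2 ^ (k + 1) * Δ - 2 ^ k * Δ = 2 ^ k * Δ := by
      rw [pow_succ, mul_comm (2 ^ k) 2, mul_assoc, two_mul, Nat.add_sub_cancel]
    rw [hNN] at h1
    have h2 : (Pr μ).real (BlockEv (2 ^ k * Δ) (2 ^ (k + 1) * Δ) (2 * h k) U (s k)) ≤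
        μ.real U * (C * (2 * h k) ^ d) ^ (s k) * ((2 ^ k * Δ).choose (s k + 1) : ℝ) := by
      have h3 := ENNReal.toReal_mono (b := μ U * ENNReal.ofReal (C * (2 * h k) ^ d) ^ (s k) *
        ((2 ^ k * Δ).choose (s k + 1) : ℕ)) (by finiteness) h1
      rw [ENNReal.toReal_mul, ENNReal.toReal_mul, ENNReal.toReal_pow,
        ENNReal.toReal_ofReal hv0, ENNReal.toReal_natCast] at h3
      exact h3
    refine h2.trans ?_
    refine (path_num (huk k) hR0 hC hC1 (N := 2 ^ k * Δ) (s := s k) ?_ hmU measureReal_nonneg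
      (Nat.le_ceil _)).trans ?_
    · push_cast
      rw [uu_pow hd]
      have : (0 : ℝ) < 2 ^ k := by positivity
      nlinarith
    · have h4 := hFu k 1 (min_le_right _ _)
      rw [one_mul] at h4
      calc 2 * C1 * (uu d u0 k ^ DD d * Real.exp (-(uu d u0 k ^ d)))
          ≤ 2 * C1 * (F / uu d u0 k) := by gcongr
        _ = 2 * (C1 * F / uu d u0 k) := by ring
  have hcovP : ∀ k, (Pr μ).real (CovFail Δ (2 ^ (k + 1) * Δ) (Z (k + 1)) (h (k + 1))) ≤
      C1 * F / uu d u0 k := by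
    intro k
    refine (covFail_le μ _ _ _ _ (p := c * h (k + 1) ^ d)
      (fun z => hR.lower z _ (hh _).1 ((hh _).2.trans hR1))).trans ?_
    refine (hcov (k + 1) _ ?_).trans ?_
    · rw [uu_pow hd]
      have h1 : ((2 ^ (k + 1) * Δ - Δ : ℕ) : ℝ) = 2 ^ (k + 1) * Δ - Δ := by
        rw [Nat.cast_sub (Nat.le_mul_of_pos_left _ (by positivity))]
        push_cast; ring
      rw [h1]
      have h2 : (1 : ℝ) ≤ 2 ^ k := one_le_pow₀ (by norm_num)
      have h3 : 0 ≤ (Δ : ℝ) * R ^ d := by positivity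
      rw [pow_succ]
      nlinarith [pow_pos (show (0 : ℝ) < 2 by norm_num) k, pow_pos hu0' (DD d)]
    · have : uu d u0 k ≤ uu d u0 (k + 1) := by
        simp only [uu]
        rw [pow_succ, ← mul_assoc]
        exact le_mul_of_one_le_right (by have := one_lt_th hd; positivity) (one_lt_th hd).le
      have := huk0 k
      gcongr
  refine ⟨h, s, Z, hh, hZ1, hZ2, ?_, ?_, ?_⟩
  · intro k
    have h1 : ∀ l, (s l : ℝ) * (2 * h l) ≤ 2 * (β + 1) * R / uu d u0 l := by
      intro l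
      have hul := huk l
      have hul0 := huk0 l
      have hs1 : (s l : ℝ) ≤ (β + 1) * uu d u0 l ^ d := by
        have h2 : (s l : ℝ) < β * uu d u0 l ^ d + 1 := Nat.ceil_lt_add_one (by positivity)
        have h3 : 1 ≤ uu d u0 l ^ d := one_le_pow₀ hul
        nlinarith
      calc (s l : ℝ) * (2 * h l) ≤ ((β + 1) * uu d u0 l ^ d) * (2 * h l) := by
            have := (hh l).1
            gcongr
        _ = 2 * (β + 1) * R * (uu d u0 l ^ d / uu d u0 l ^ (2 * d + 1)) := by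
            simp only [h]; ring
        _ ≤ 2 * (β + 1) * R * (1 / uu d u0 l) := by
            have h5 : uu d u0 l ^ d / uu d u0 l ^ (2 * d + 1) ≤ 1 / uu d u0 l := by
              rw [div_le_div_iff₀ (by positivity) hul0, one_mul, ← pow_succ]
              exact pow_le_pow_right₀ hul (by omega)
            gcongr
        _ = 2 * (β + 1) * R / uu d u0 l := by ring
    calc ∑ l ∈ Finset.range k, (s l : ℝ) * (2 * h l)
        ≤ ∑ l ∈ Finset.range k, 2 * (β + 1) * R / uu d u0 l := Finset.sum_le_sum fun l _ => h1 l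
      _ ≤ 2 * (β + 1) * R * gs d / u0 := sum_uu_le hd hu0 (by positivity) k
      _ ≤ Q * R / u0 := by
          have : 2 * (β + 1) * gs d ≤ Q := by
            rw [hQ]
            have : 0 < 3 * C1 * F * gs d := by positivity
            have : 0 < C1 * F := by positivity
            linarith
          rw [show 2 * (β + 1) * R * gs d = (2 * (β + 1) * gs d) * R by ring]
          gcongr
  · have hb : ∀ k, Pr μ (CovFail Δ (2 ^ (k + 1) * Δ) (Z (k + 1)) (h (k + 1)) ∪
          BlockEv (2 ^ k * Δ) (2 ^ (k + 1) * Δ) (2 * h k) U (s k)) ≤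
          ENNReal.ofReal (3 * C1 * F / uu d u0 k) := by
      intro k
      rw [← ofReal_measureReal]
      refine ENNReal.ofReal_le_ofReal ?_
      refine (measureReal_union_le _ _).trans ?_
      refine (add_le_add (hcovP k) (hpath k)).trans (le_of_eq ?_)
      ring
    have hsum := hasSum_uu hd u0 (3 * C1 * F)
    have h2 : Pr μ (⋃ k, (CovFail Δ (2 ^ (k + 1) * Δ) (Z (k + 1)) (h (k + 1)) ∪
          BlockEv (2 ^ k * Δ) (2 ^ (k + 1) * Δ) (2 * h k) U (s k))) ≤
          ENNReal.ofReal (3 * C1 * F * gs d / u0) := by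
      refine (measure_iUnion_le _).trans ((ENNReal.tsum_le_tsum hb).trans (le_of_eq ?_))
      rw [← hsum.tsum_eq, ENNReal.ofReal_tsum_of_nonneg _ hsum.summable]
      intro k
      have := huk0 k
      positivity
    have h3 := ENNReal.toReal_mono (by finiteness) h2
    rw [ENNReal.toReal_ofReal (by positivity)] at h3
    refine h3.trans ?_
    have : 3 * C1 * F * gs d ≤ Q := by
      rw [hQ]
      have : 0 < 2 * (β + 1) * gs d := by positivity
      have : 0 < C1 * F := by positivity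
      linarith
    gcongr
  · have h1 := hcov 0 Δ (by
      rw [uu_zero]
      have : 0 < u0 ^ DD d := by positivity
      linarith)
    rw [uu_zero] at h1
    refine h1.trans ?_
    have : C1 * F ≤ Q := by
      rw [hQ]
      have : 0 < 2 * (β + 1) * gs d := by positivity
      have : 0 < 3 * C1 * F * gs d := by positivity
      linarith
    gcongr

end Pool.Agent.H95.NN
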