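import Pool.Agent.H95.NN.Own

/-!
Both sides of the first edge contain a positive proportion of the vertices.
-/

open MeasureTheory Set Metric Filter Topology ProbabilityTheory

namespace Pool.Agent.H95.NN

variable {X : Type*} [PseudoMetricSpace X]

/-- The number of vertices on the side of `a` among the first `n`. -/
noncomputable def ccount (q : ℕ → X) (a n : ℕ) : ℕ :=
  ((Finset.range n).filter (fun i => cl q i = a)).card

lemma ccount_add (q : ℕ → X) (n : ℕ) : ccount q 0 n + ccount q 1 n = n := by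
  classical
  have h1 : (Finset.range n).filter (fun i => cl q i = 1) =
      (Finset.range n).filter (fun i => ¬ cl q i = 0) := by
    refine Finset.filter_congr fun i _ => ?_
    have := cl_lt_two q i
    omega
  rw [ccount, ccount, h1, Finset.card_filter_add_card_filter_not, Finset.card_range]

lemma one_le_ccount (q : ℕ → X) {a n : ℕ} (ha : a < 2) (hn : 2 ≤ n) : 1 ≤ ccount q a n := by
  rw [ccount, Nat.one_le_iff_ne_zero, Finset.card_ne_zero]
  exact ⟨a, Finset.mem_filter.2 ⟨Finset.mem_range.2 (by omega), cl_lt ha⟩⟩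

variable [MeasurableSpace X] [OpensMeasurableSpace X] [SecondCountableTopology X]

omit [PseudoMetricSpace X] [OpensMeasurableSpace X] [SecondCountableTopology X] in
lemma slln_set (μ : Measure X) [IsProbabilityMeasure μ] {B : Set X} (hB : MeasurableSet B) :
    ∀ᵐ q ∂(Pr μ), Tendsto (fun n : ℕ => (∑ i ∈ Finset.range n, B.indicator (fun _ => (1 : ℝ)) (q i)) / n)
      atTop (𝓝 (μ.real B)) := by
  have hf : Measurable (B.indicator (fun _ => (1 : ℝ))) := measurable_const.indicator hB
  have hind : iIndepFun (fun (i : ℕ) (q : ℕ → X) => B.indicator (fun _ => (1 : ℝ)) (q i)) (Pr μ) :=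
    iIndepFun_infinitePi (fun _ => hf)
  have hlaw : ∀ i : ℕ, (Pr μ).map (fun q : ℕ → X => B.indicator (fun _ => (1 : ℝ)) (q i)) =
      μ.map (B.indicator (fun _ => (1 : ℝ))) := by
    intro i
    have h1 : (fun q : ℕ → X => B.indicator (fun _ => (1 : ℝ)) (q i)) =
        (B.indicator (fun _ => (1 : ℝ))) ∘ (fun q : ℕ → X => q i) := rfl
    rw [h1, ← Measure.map_map hf (measurable_pi_apply i), Measure.infinitePi_map_eval]
  have h := strong_law_ae_real (μ := Pr μ)
    (fun (i : ℕ) (q : ℕ → X) => B.indicator (fun _ => (1 : ℝ)) (q i)) ?_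
    (fun i j hij => hind.indepFun hij) ?_
  · have hE : (Pr μ)[fun q : ℕ → X => B.indicator (fun _ => (1 : ℝ)) (q 0)] = μ.real B := by
      have h1 : ∫ q, B.indicator (fun _ => (1 : ℝ)) (q 0) ∂(Pr μ) =
          ∫ y, B.indicator (fun _ => (1 : ℝ)) y ∂((Pr μ).map (fun q : ℕ → X => q 0)) := by
        rw [integral_map (measurable_pi_apply 0).aemeasurable hf.aestronglyMeasurable]
      rw [h1, Measure.infinitePi_map_eval, integral_indicator hB]
      simp
    rw [hE] at h
    exact h
  · refine Integrable.of_bound (C := 1) (hf.comp (measurable_pi_apply 0)).aestronglyMeasurable ?_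
    refine Filter.Eventually.of_forall fun q => ?_
    by_cases hq : q 0 ∈ B
    · simp [hq]
    · simp [hq]
  · intro i
    exact ⟨(hf.comp (measurable_pi_apply i)).aemeasurable,
      (hf.comp (measurable_pi_apply 0)).aemeasurable, by rw [hlaw, hlaw]⟩

lemma ae_macro {μ : Measure X} [IsProbabilityMeasure μ] {d : ℕ} {c C : ℝ}
    (hR : Reg μ d c C) {a : ℕ} (ha : a < 2) :
    ∀ᵐ q ∂(Pr μ), ∃ K : ℕ, ∀ n : ℕ, 2 ≤ n → (n : ℝ) ≤ (K + 1) * ccount q a n := by
  classical
  have hc := hR.hc
  have hnet : ∀ k : ℕ, ∃ Z : Finset X, ∀ y : X, ∃ z ∈ Z, dist y z ≤ 1 / (2 * ((k : ℝ) + 1)) := by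
    intro k
    have hk : (0 : ℝ) < 1 / (2 * ((k : ℝ) + 1)) := by positivity
    obtain ⟨Z, h1, -, -⟩ := netProp_univ hR (1 / (2 * ((k : ℝ) + 1))) hk (by
      rw [div_le_one (by positivity)]
      have : (0 : ℝ) ≤ k := Nat.cast_nonneg k
      linarith)
    exact ⟨Z, fun y => h1 y (mem_univ _)⟩
  choose Z hZ using hnet
  have hall : ∀ᵐ q ∂(Pr μ), ∀ k : ℕ, ∀ z : (Z k), Tendsto (fun n : ℕ =>
      (∑ i ∈ Finset.range n, (closedBall z.1 (1 / (2 * ((k : ℝ) + 1)))).indicator
        (fun _ => (1 : ℝ)) (q i)) / n) atTop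
      (𝓝 (μ.real (closedBall z.1 (1 / (2 * ((k : ℝ) + 1)))))) := by
    rw [ae_all_iff]
    intro k
    rw [ae_all_iff]
    intro z
    exact slln_set μ isClosed_closedBall.measurableSet
  filter_upwards [hall, ae_own hR ha] with q hq hown
  simp only [Own, mem_iUnion, mem_iInter, mem_ofPred_eq] at hown
  obtain ⟨k, M, hown⟩ := hown
  obtain ⟨z, hz, hqz⟩ := hZ k (q a)
  set h : ℝ := 1 / (2 * ((k : ℝ) + 1)) with hh
  have hh0 : 0 < h := by positivity
  have hk0 : (0 : ℝ) ≤ k := Nat.cast_nonneg k
  have h2h : 2 * h = 1 / ((k : ℝ) + 1) := by rw [hh]; field_simp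
  have hh1 : h ≤ 1 := by rw [hh, div_le_one (by positivity)]; linarith
  have hB : 0 < μ.real (closedBall z h) :=
    lt_of_lt_of_le (by positivity) (hR.lower z h hh0 hh1)
  have hlim := hq k ⟨z, hz⟩
  simp only at hlim
  set η : ℝ := μ.real (closedBall z h) with hη
  have hev : ∀ᶠ n : ℕ in atTop, η / 2 < (∑ i ∈ Finset.range n, (closedBall z h).indicator
        (fun _ => (1 : ℝ)) (q i)) / n := hlim.eventually (lt_mem_nhds (by linarith))
  obtain ⟨n1, hn1⟩ := eventually_atTop.1 hev
  have hcount : ∀ n : ℕ, (∑ i ∈ Finset.range n, (closedBall z h).indicator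
        (fun _ => (1 : ℝ)) (q i)) ≤ M + ccount q a n := by
    intro n
    have h1 : (∑ i ∈ Finset.range n, (closedBall z h).indicator (fun _ => (1 : ℝ)) (q i)) =
        (((Finset.range n).filter (fun i => q i ∈ closedBall z h)).card : ℝ) := by
      rw [Finset.card_filter]
      push_cast
      refine Finset.sum_congr rfl fun i _ => ?_
      by_cases hi : q i ∈ closedBall z h
      · rw [indicator_of_mem hi, if_pos hi]
      · rw [indicator_of_notMem hi, if_neg hi]
    rw [h1, ccount]
    have h2 : (Finset.range n).filter (fun i => q i ∈ closedBall z h) ⊆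
        Finset.range M ∪ (Finset.range n).filter (fun i => cl q i = a) := by
      intro i hi
      rw [Finset.mem_filter, mem_closedBall] at hi
      rw [Finset.mem_union, Finset.mem_range, Finset.mem_filter]
      by_cases hiM : i < M
      · exact Or.inl hiM
      · refine Or.inr ⟨hi.1, hown i (by omega) ?_⟩
        have := dist_triangle_right (q i) (q a) z
        rw [← h2h]
        linarith [hi.2]
    have h3 := (Finset.card_le_card h2).trans (Finset.card_union_le _ _)
    rw [Finset.card_range] at h3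
    exact_mod_cast h3
  obtain ⟨K, hK⟩ := exists_nat_ge (max (max (n1 : ℝ) (4 * M / η)) (4 / η))
  simp only [max_le_iff] at hK
  obtain ⟨⟨hK1, hK2⟩, hK3⟩ := hK
  refine ⟨K, fun n hn => ?_⟩
  have hone : (1 : ℝ) ≤ ccount q a n := by exact_mod_cast one_le_ccount q ha hn
  by_cases hnK : n ≤ K
  · have : (n : ℝ) ≤ K := by exact_mod_cast hnK
    nlinarith
  · push Not at hnK
    have hnK' : (K : ℝ) < n := by exact_mod_cast hnK
    have hn1' : n1 ≤ n := by
      have : (n1 : ℝ) < n := by linarith
      exact_mod_cast this.le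
    have h1 := hn1 n hn1'
    have hn0 : (0 : ℝ) < n := by positivity
    rw [lt_div_iff₀ hn0] at h1
    have h2 := hcount n
    have h3 : 4 * M ≤ η * n := by
      rw [div_le_iff₀ hB] at hK2
      nlinarith
    have h4 : η * n ≤ 4 * ccount q a n := by linarith
    have h5 : 4 ≤ K * η := by rwa [div_le_iff₀ hB] at hK3
    have h6 : (n : ℝ) * 4 ≤ K * (4 * ccount q a n) := by
      calc (n : ℝ) * 4 ≤ n * (K * η) := by gcongr
        _ = K * (η * n) := by ring
        _ ≤ K * (4 * ccount q a n) := by gcongr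
    linarith

/-- Both sides are macroscopic, uniformly in `n`. -/
theorem macro_sides {μ : Measure X} [IsProbabilityMeasure μ] {d : ℕ} {c C : ℝ}
    (hR : Reg μ d c C) {a : ℕ} (ha : a < 2) {ε : ℝ} (hε : 0 < ε) :
    ∃ K : ℕ, (Pr μ).real {q : ℕ → X | ¬ ∀ n : ℕ, 2 ≤ n → (n : ℝ) ≤ (K + 1) * ccount q a n} ≤ ε := by
  let B : ℕ → Set (ℕ → X) := fun K => {q | ∀ n : ℕ, 2 ≤ n → (n : ℝ) ≤ (K + 1) * ccount q a n}
  have hBm : ∀ K, MeasurableSet (B K) := by
    intro K
    have : B K = ⋂ n : ℕ, {q | 2 ≤ n → (n : ℝ) ≤ (K + 1) * ccount q a n} := by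
      ext q; simp [B]
    rw [this]
    refine MeasurableSet.iInter fun n => ?_
    by_cases hn : 2 ≤ n
    · simp only [hn, true_imp_iff]
      refine measurableSet_le measurable_const (measurable_const.mul ?_)
      have h1 : (fun q : ℕ → X => (ccount q a n : ℝ)) =
          fun q => ∑ i ∈ Finset.range n, {q : ℕ → X | cl q i = a}.indicator (fun _ => (1 : ℝ)) q := by
        ext q
        rw [ccount, Finset.card_filter]
        push_cast
        refine Finset.sum_congr rfl fun i _ => ?_
        by_cases hi : cl q i = a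
        · rw [indicator_of_mem (show q ∈ {q : ℕ → X | cl q i = a} from hi), if_pos hi]
        · rw [indicator_of_notMem (show q ∉ {q : ℕ → X | cl q i = a} from hi), if_neg hi]
      rw [h1]
      exact Finset.measurable_fun_sum _ fun i _ =>
        measurable_const.indicator (measurableSet_cl i a)
    · simp [hn]
  have hmono : Monotone B := by
    intro K K' hKK q hq n hn
    refine (hq n hn).trans ?_
    have : (K : ℝ) ≤ K' := by exact_mod_cast hKK
    gcongr
  have hlim := tendsto_measure_iUnion_atTop (μ := Pr μ) hmono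
  have hfull : Pr μ (⋃ K, B K) = 1 := by
    rw [prob_compl_eq_zero_iff (MeasurableSet.iUnion hBm) |>.symm]
    have := ae_macro hR ha
    rw [ae_iff] at this
    convert this using 2
    ext q
    simp [B]
  rw [hfull] at hlim
  have hev : ∀ᶠ K in atTop, 1 - ENNReal.ofReal ε ≤ Pr μ (B K) := by
    have h1 : 1 - ENNReal.ofReal ε < 1 :=
      ENNReal.sub_lt_self (by simp) (by simp) (by simpa using hε)
    exact (hlim.eventually (lt_mem_nhds h1)).mono fun K hK => hK.le
  obtain ⟨K, hK⟩ := hev.exists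
  refine ⟨K, ?_⟩
  have h1 : {q : ℕ → X | ¬ ∀ n : ℕ, 2 ≤ n → (n : ℝ) ≤ (K + 1) * ccount q a n} = (B K)ᶜ := rfl
  rw [h1, probReal_compl_eq_one_sub (hBm K)]
  have h2 : 1 ≤ Pr μ (B K) + ENNReal.ofReal ε := tsub_le_iff_right.1 hK
  have h3 := ENNReal.toReal_mono (by finiteness) h2
  rw [ENNReal.toReal_add (by finiteness) (by finiteness), ENNReal.toReal_ofReal hε.le] at h3
  simp only [ENNReal.toReal_one] at h3
  rw [measureReal_def]
  linarith

end Pool.Agent.H95.NN
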