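import Pool.Agent.H95.NN.Path

/-!
Ahlfors regular probability measures, nets, covering events.
-/

open MeasureTheory Set Metric

namespace Pool.Agent.H95.NN

variable {X : Type*} [PseudoMetricSpace X] [MeasurableSpace X]

/-- Ahlfors regularity of dimension `d` with constants `c`, `C`. -/
structure Reg (μ : Measure X) (d : ℕ) (c C : ℝ) : Prop where
  hd : 1 ≤ d
  hc : 0 < c
  hC : 1 ≤ C
  lower : ∀ x r, 0 < r → r ≤ 1 → c * r ^ d ≤ μ.real (closedBall x r)
  upper : ∀ x r, 0 ≤ r → μ.real (closedBall x r) ≤ C * r ^ d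

/-- The set `U` has small nets at every scale below `R`. -/
def NetProp (U : Set X) (R : ℝ) (d : ℕ) (C1 : ℝ) : Prop :=
  ∀ h, 0 < h → h ≤ R → ∃ Z : Finset X, (∀ y ∈ U, ∃ z ∈ Z, dist y z ≤ h) ∧ (∀ z ∈ Z, z ∈ U) ∧
    (Z.card : ℝ) * h ^ d ≤ C1 * R ^ d

variable [OpensMeasurableSpace X]

lemma net_exists {μ : Measure X} [IsProbabilityMeasure μ] {d : ℕ} {c C : ℝ} (hR : Reg μ d c C)
    {U V : Set X} {M h : ℝ} (hh : 0 < h) (hh1 : h ≤ 1)
    (hV : ∀ z ∈ U, closedBall z (h / 3) ⊆ V) (hM : μ.real V ≤ M) :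
    ∃ Z : Finset X, (∀ y ∈ U, ∃ z ∈ Z, dist y z ≤ h) ∧ (∀ z ∈ Z, z ∈ U) ∧
      (Z.card : ℝ) * (c * (h / 3) ^ d) ≤ M := by
  classical
  have hpos : 0 < c * (h / 3) ^ d := mul_pos hR.hc (by positivity)
  let Q : ℕ → Prop := fun n => ∃ Z : Finset X, Z.card = n ∧ (∀ z ∈ Z, z ∈ U) ∧
    (∀ z ∈ Z, ∀ w ∈ Z, z ≠ w → h < dist z w)
  have hbound : ∀ Z : Finset X, (∀ z ∈ Z, z ∈ U) → (∀ z ∈ Z, ∀ w ∈ Z, z ≠ w → h < dist z w) →
      (Z.card : ℝ) * (c * (h / 3) ^ d) ≤ M := by
    intro Z hZU hZ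
    have hdisj : Set.PairwiseDisjoint (Z : Set X) (fun z => closedBall z (h / 3)) := by
      intro z hz w hw hzw
      refine Set.disjoint_left.2 fun y hy1 hy2 => ?_
      have h1 := hZ z hz w hw hzw
      have h2 : dist z w ≤ dist y z + dist y w := dist_triangle_left z w y
      rw [mem_closedBall] at hy1 hy2
      linarith
    have hsub : (⋃ z ∈ Z, closedBall z (h / 3)) ⊆ V :=
      iUnion₂_subset fun z hz => hV z (hZU z hz)
    calc (Z.card : ℝ) * (c * (h / 3) ^ d) = ∑ _z ∈ Z, (c * (h / 3) ^ d) := by simp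
      _ ≤ ∑ z ∈ Z, μ.real (closedBall z (h / 3)) :=
          Finset.sum_le_sum fun z _ => hR.lower z _ (by positivity) (by linarith)
      _ = μ.real (⋃ z ∈ Z, closedBall z (h / 3)) := by
          rw [measureReal_biUnion_finset hdisj fun z _ => isClosed_closedBall.measurableSet]
      _ ≤ μ.real V := measureReal_mono hsub
      _ ≤ M := hM
  obtain ⟨B, hB⟩ := exists_nat_ge (M / (c * (h / 3) ^ d))
  have hQB : ∀ n, Q n → n ≤ B := by
    rintro n ⟨Z, rfl, hZU, hZ⟩
    have h1 := hbound Z hZU hZ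
    have h2 : (Z.card : ℝ) ≤ M / (c * (h / 3) ^ d) := by rwa [le_div_iff₀ hpos]
    exact_mod_cast h2.trans hB
  have hQ0 : Q 0 := ⟨∅, rfl, by simp, by simp⟩
  have hQm : Q (Nat.findGreatest Q B) := Nat.findGreatest_spec (Nat.zero_le B) hQ0
  obtain ⟨Z, hZc, hZU, hZ⟩ := hQm
  refine ⟨Z, fun y hy => ?_, hZU, hbound Z hZU hZ⟩
  by_contra hcon
  push Not at hcon
  have hyZ : y ∉ Z := fun hyZ => by
    have := hcon y hyZ
    rw [dist_self] at this
    linarith
  have hQ1 : Q (Nat.findGreatest Q B + 1) := by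
    refine ⟨insert y Z, by rw [Finset.card_insert_of_notMem hyZ, hZc], ?_, ?_⟩
    · intro z hz
      rcases Finset.mem_insert.1 hz with rfl | hz
      · exact hy
      · exact hZU z hz
    · intro z hz w hw hzw
      rcases Finset.mem_insert.1 hz with hz1 | hz1
      · rcases Finset.mem_insert.1 hw with hw1 | hw1
        · exact absurd (hz1.trans hw1.symm) hzw
        · rw [hz1]; exact hcon w hw1
      · rcases Finset.mem_insert.1 hw with hw1 | hw1
        · rw [hw1, dist_comm]; exact hcon z hz1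
        · exact hZ z hz1 w hw1 hzw
  have := Nat.le_findGreatest (hQB _ hQ1) hQ1
  omega

lemma netProp_ball {μ : Measure X} [IsProbabilityMeasure μ] {d : ℕ} {c C : ℝ}
    (hR : Reg μ d c C) (x : X) {R : ℝ} (hR0 : 0 < R) (hR1 : R ≤ 1) :
    NetProp (closedBall x R) R d (6 ^ d * C / c) := by
  intro h hh hhR
  obtain ⟨Z, h1, h2, h3⟩ := net_exists hR (U := closedBall x R) (V := closedBall x (2 * R))
    (M := C * (2 * R) ^ d) hh (hhR.trans hR1) (fun z hz => by
      intro y hy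
      rw [mem_closedBall] at hy hz ⊢
      have := dist_triangle y z x
      linarith) (hR.upper x _ (by positivity))
  refine ⟨Z, h1, h2, ?_⟩
  have hc := hR.hc
  rw [div_pow, ← mul_div_assoc, ← mul_div_assoc, div_le_iff₀ (by positivity)] at h3
  rw [div_mul_eq_mul_div, le_div_iff₀ hc]
  calc (Z.card : ℝ) * h ^ d * c = Z.card * (c * h ^ d) := by ring
    _ ≤ C * (2 * R) ^ d * 3 ^ d := h3
    _ = 6 ^ d * C * R ^ d := by
        rw [show (6 : ℝ) = 2 * 3 by norm_num, mul_pow, mul_pow]; ring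

lemma netProp_univ {μ : Measure X} [IsProbabilityMeasure μ] {d : ℕ} {c C : ℝ}
    (hR : Reg μ d c C) : NetProp (univ : Set X) 1 d (6 ^ d * C / c) := by
  intro h hh hhR
  obtain ⟨Z, h1, h2, h3⟩ := net_exists hR (U := univ) (V := univ)
    (M := 1) hh hhR (fun z _ => subset_univ _) (by simp)
  refine ⟨Z, h1, h2, ?_⟩
  have hc := hR.hc
  have hC := hR.hC
  rw [div_pow, ← mul_div_assoc, ← mul_div_assoc, div_le_iff₀ (by positivity)] at h3
  rw [div_mul_eq_mul_div, le_div_iff₀ hc]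
  have h6 : (3 : ℝ) ^ d ≤ 6 ^ d * C := by
    have : (3 : ℝ) ^ d ≤ 6 ^ d := pow_le_pow_left₀ (by norm_num) (by norm_num) d
    nlinarith [pow_pos (show (0 : ℝ) < 6 by norm_num) d]
  calc (Z.card : ℝ) * h ^ d * c = Z.card * (c * h ^ d) := by ring
    _ ≤ 1 * 3 ^ d := h3
    _ ≤ 6 ^ d * C * 1 ^ d := by simpa using h6

/-- Some ball of the net is not hit by the points with index in `[a, b)`. -/
def CovFail (a b : ℕ) (Z : Finset X) (h : ℝ) : Set (ℕ → X) :=
  ⋃ z ∈ Z, {q | ∀ j ∈ Finset.Ico a b, h < dist (q j) z}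

omit [PseudoMetricSpace X] [OpensMeasurableSpace X] in
lemma hit_prob (μ : Measure X) [IsProbabilityMeasure μ] (s : Finset ℕ) {T : Set X}
    (hT : MeasurableSet T) :
    (Pr μ).real {q | ∀ j ∈ s, q j ∈ T} = (μ.real T) ^ s.card := by
  have : {q : ℕ → X | ∀ j ∈ s, q j ∈ T} = Set.pi (s : Set ℕ) (fun _ => T) := by
    ext q; simp [Set.mem_pi]
  rw [this, measureReal_def, Measure.infinitePi_pi _ (fun _ _ => hT)]
  simp [measureReal_def]

lemma measurableSet_covFail (a b : ℕ) (Z : Finset X) (h : ℝ) :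
    MeasurableSet (CovFail a b Z h) := by
  refine Finset.measurableSet_biUnion _ fun z _ => ?_
  have : {q : ℕ → X | ∀ j ∈ Finset.Ico a b, h < dist (q j) z} =
      ⋂ j ∈ Finset.Ico a b, (fun q : ℕ → X => q j) ⁻¹' (closedBall z h)ᶜ := by
    ext q; simp [mem_closedBall]
  rw [this]
  exact Finset.measurableSet_biInter _ fun j _ =>
    measurable_pi_apply j isClosed_closedBall.measurableSet.compl

lemma covFail_le (μ : Measure X) [IsProbabilityMeasure μ] (a b : ℕ) (Z : Finset X) (h : ℝ)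
    {p : ℝ} (hp : ∀ z, p ≤ μ.real (closedBall z h)) :
    (Pr μ).real (CovFail a b Z h) ≤ Z.card * (1 - p) ^ (b - a) := by
  calc (Pr μ).real (CovFail a b Z h)
      ≤ ∑ z ∈ Z, (Pr μ).real {q : ℕ → X | ∀ j ∈ Finset.Ico a b, h < dist (q j) z} :=
        measureReal_biUnion_finset_le _ _
    _ ≤ ∑ _z ∈ Z, (1 - p) ^ (b - a) := by
        refine Finset.sum_le_sum fun z _ => ?_
        have h1 : {q : ℕ → X | ∀ j ∈ Finset.Ico a b, h < dist (q j) z} =
            {q | ∀ j ∈ Finset.Ico a b, q j ∈ (closedBall z h)ᶜ} := by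
          ext q; simp [mem_closedBall]
        rw [h1, hit_prob μ _ isClosed_closedBall.measurableSet.compl, Nat.card_Ico,
          probReal_compl_eq_one_sub isClosed_closedBall.measurableSet]
        refine pow_le_pow_left₀ ?_ (by linarith [hp z]) _
        have := measureReal_le_one (μ := μ) (s := closedBall z h)
        linarith
    _ = Z.card * (1 - p) ^ (b - a) := by simp

omit [MeasurableSpace X] [OpensMeasurableSpace X] in
lemma covFail_depGe {a b m : ℕ} (hma : m ≤ a) (Z : Finset X) (h : ℝ) :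
    DepGe m (CovFail a b Z h) := by
  intro q q' hq
  simp only [CovFail, mem_iUnion, mem_ofPred_eq, Finset.mem_Ico, exists_prop]
  refine exists_congr fun z => and_congr_right fun _ => forall₂_congr fun j hj => ?_
  rw [hq j (hma.trans hj.1)]

end Pool.Agent.H95.NN
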