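import Pool.Agent.H95.NN.Cls

/-!
The one-scale lemma and the zero-one law: almost surely both of the vertices `0`, `1` own a ball.
-/

open MeasureTheory Set Metric

namespace Pool.Agent.H95.NN

variable {X : Type*} [PseudoMetricSpace X] [MeasurableSpace X] [OpensMeasurableSpace X]
  [SecondCountableTopology X]

lemma exp_le_one_sub {y : ℝ} (h0 : 0 ≤ y) (h1 : y ≤ 1 / 2) : Real.exp (-(2 * y)) ≤ 1 - y := by
  have h2 : 2 * y + 1 ≤ Real.exp (2 * y) := Real.add_one_le_exp _
  rw [Real.exp_neg]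
  rw [inv_le_comm₀ (Real.exp_pos _) (by linarith)]
  refine le_trans ?_ h2
  rw [inv_le_comm₀ (by linarith) (by linarith), inv_le_comm₀ (by positivity) (by linarith)]
  rw [inv_le_comm₀ (by linarith) (by positivity)]
  rw [inv_le_iff_one_le_mul₀ (by linarith)]
  nlinarith

/-- Probability of the one-scale event: no point in the shell and all balls of the net hit. -/
lemma shell_prob {μ : Measure X} [IsProbabilityMeasure μ] {S : Set X} (hS : MeasurableSet S)
    {Δ : ℕ} {Z : Finset X} {h p : ℝ} (hp : ∀ z, p ≤ μ.real (closedBall z h)) (hp0 : 0 ≤ p)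
    (hdisj : ∀ z ∈ Z, Disjoint S (closedBall z h)) (hZ : Z.card * (1 - p) ^ Δ ≤ 1 / 2) :
    (1 - μ.real S) ^ Δ / 2 ≤
      (Pr μ).real ({q : ℕ → X | ∀ j ∈ Finset.range Δ, q j ∈ Sᶜ} \ CovFail 0 Δ Z h) := by
  set A : Set (ℕ → X) := {q : ℕ → X | ∀ j ∈ Finset.range Δ, q j ∈ Sᶜ} with hA
  have hA1 : (Pr μ).real A = (1 - μ.real S) ^ Δ := by
    rw [hA, hit_prob μ _ hS.compl, probReal_compl_eq_one_sub hS, Finset.card_range]
  have hσ : μ.real S ≤ 1 := measureReal_le_one
  have h1 : (Pr μ).real (A ∩ CovFail 0 Δ Z h) ≤ (1 - μ.real S) ^ Δ / 2 := by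
    have hsub : A ∩ CovFail 0 Δ Z h ⊆
        ⋃ z ∈ Z, {q : ℕ → X | ∀ j ∈ Finset.range Δ, q j ∈ (S ∪ closedBall z h)ᶜ} := by
      rintro q ⟨h1, h2⟩
      simp only [CovFail, mem_iUnion, mem_ofPred_eq, Finset.mem_Ico, exists_prop] at h2
      obtain ⟨z, hz, h3⟩ := h2
      simp only [mem_iUnion, exists_prop]
      refine ⟨z, hz, fun j hj => ?_⟩
      rw [compl_union]
      refine ⟨h1 j hj, ?_⟩
      have := h3 j ⟨Nat.zero_le _, Finset.mem_range.1 hj⟩
      simpa [mem_closedBall] using this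
    calc (Pr μ).real (A ∩ CovFail 0 Δ Z h)
        ≤ (Pr μ).real (⋃ z ∈ Z, {q : ℕ → X | ∀ j ∈ Finset.range Δ,
            q j ∈ (S ∪ closedBall z h)ᶜ}) := measureReal_mono hsub (measure_ne_top _ _)
      _ ≤ ∑ z ∈ Z, (Pr μ).real {q : ℕ → X | ∀ j ∈ Finset.range Δ,
            q j ∈ (S ∪ closedBall z h)ᶜ} := measureReal_biUnion_finset_le _ _
      _ ≤ ∑ _z ∈ Z, ((1 - μ.real S) * (1 - p)) ^ Δ := by
          refine Finset.sum_le_sum fun z hz => ?_
          have hm : MeasurableSet (S ∪ closedBall z h) := hS.union isClosed_closedBall.measurableSet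
          rw [hit_prob μ _ hm.compl, probReal_compl_eq_one_sub hm, Finset.card_range]
          have hle1 : μ.real (S ∪ closedBall z h) ≤ 1 := measureReal_le_one
          refine pow_le_pow_left₀ (by linarith) ?_ _
          rw [measureReal_union (hdisj z hz) isClosed_closedBall.measurableSet]
          have h2 := hp z
          have h3 : 0 ≤ μ.real S := measureReal_nonneg
          nlinarith
      _ = (1 - μ.real S) ^ Δ * (Z.card * (1 - p) ^ Δ) := by
          rw [Finset.sum_const, nsmul_eq_mul, mul_pow]; ring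
      _ ≤ (1 - μ.real S) ^ Δ * (1 / 2) :=
          mul_le_mul_of_nonneg_left hZ (pow_nonneg (by linarith) _)
      _ = (1 - μ.real S) ^ Δ / 2 := by ring
  have h2 : (Pr μ).real A ≤ (Pr μ).real (A ∩ CovFail 0 Δ Z h) +
      (Pr μ).real (A \ CovFail 0 Δ Z h) := by
    rw [measureReal_inter_add_sdiff (measurableSet_covFail 0 Δ Z h)]
  linarith

/-- The one-scale lemma. -/
theorem one_scale {μ : Measure X} [IsProbabilityMeasure μ] {d : ℕ} {c C : ℝ}
    (hR : Reg μ d c C) : ∃ cs : ℝ, 0 < cs ∧ ∀ m a : ℕ, 2 ≤ m → a < 2 → ∀ x : ℕ → X,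
      (∀ j < m, j ≠ a → 0 < dist (x j) (x a)) →
      cs ≤ (Pr μ).real {q | cat m x q ∈ Own a} := by
  classical
  have hd := hR.hd
  have hC := hR.hC
  have hc := hR.hc
  have hC1 : 0 < 6 ^ d * C / c + C := by positivity
  obtain ⟨Q, hQ, hloc⟩ := local_lemma hR hC1
  set u0 : ℝ := max 1 (2 * Q) with hu0
  have hu1 : 1 ≤ u0 := le_max_left _ _
  have hu2 : 2 * Q ≤ u0 := le_max_right _ _
  have hu0' : 0 < u0 := by linarith
  have hQu : Q / u0 ≤ 1 / 2 := by rw [div_le_iff₀ hu0']; linarith
  set A : ℝ := u0 ^ DD d with hA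
  have hA1 : 1 ≤ A := one_le_pow₀ hu1
  refine ⟨Real.exp (-(4 * (C * 4 ^ d) * A)) / 2 * (1 / 2), by positivity, ?_⟩
  intro m a hm ha x hx
  -- the radius
  obtain ⟨r, hr0, hr⟩ : ∃ r : ℝ, 0 < r ∧ ∀ j < m, j ≠ a → r ≤ dist (x j) (x a) := by
    have hne : ((Finset.range m).filter (fun j => j ≠ a)).Nonempty := by
      by_cases ha0 : a = 0
      · exact ⟨1, by simp only [Finset.mem_filter, Finset.mem_range]; omega⟩
      · exact ⟨0, by simp only [Finset.mem_filter, Finset.mem_range]; omega⟩
    obtain ⟨j0, hj0, hmin⟩ := Finset.exists_min_image _ (fun j => dist (x j) (x a)) hne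
    rw [Finset.mem_filter, Finset.mem_range] at hj0
    exact ⟨dist (x j0) (x a), hx j0 hj0.1 hj0.2, fun j hj hja =>
      hmin j (Finset.mem_filter.2 ⟨Finset.mem_range.2 hj, hja⟩)⟩
  set R : ℝ := min (r / 8) (1 / (8 * C)) with hRR
  have hR0 : 0 < R := lt_min (by linarith) (by positivity)
  have hRr : 8 * R ≤ r := by have := min_le_left (r / 8) (1 / (8 * C)); linarith
  have hRC : R * (8 * C) ≤ 1 := by
    have := min_le_right (r / 8) (1 / (8 * C))
    rwa [le_div_iff₀ (by positivity)] at this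
  have hR8 : 8 * R ≤ 1 := by nlinarith
  have hR1 : R ≤ 1 := by linarith
  have hRd : 0 < R ^ d := by positivity
  have hRd1 : R ^ d ≤ 1 := pow_le_one₀ hR0.le hR1
  -- the number of points
  set Δ : ℕ := ⌈A / R ^ d⌉₊ with hΔ
  have hΔ1 : A ≤ Δ * R ^ d := by
    have := Nat.le_ceil (A / R ^ d)
    rwa [div_le_iff₀ hRd] at this
  have hΔ2 : Δ * R ^ d ≤ 2 * A := by
    have h1 : (Δ : ℝ) < A / R ^ d + 1 := Nat.ceil_lt_add_one (by positivity)
    have h2 : (Δ : ℝ) * R ^ d ≤ (A / R ^ d + 1) * R ^ d := by gcongr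
    have h3 : (A / R ^ d + 1) * R ^ d = A + R ^ d := by field_simp
    linarith
  have hΔ0 : 0 < Δ := by
    by_contra hcon
    have : Δ = 0 := by omega
    rw [this] at hΔ1
    simp at hΔ1
    linarith
  obtain ⟨h, s, Z, hh, hZ1, hZ2, hsum, hP, hZc⟩ := hloc u0 hu1 R hR0 hR1 (closedBall (x a) R)
    isClosed_closedBall.measurableSet ((netProp_ball hR (x a) hR0 hR1).mono (by linarith) hR0)
    ((hR.upper (x a) R hR0.le).trans (by
      have : 0 ≤ 6 ^ d * C / c := by positivity
      nlinarith)) Δ hΔ1 hΔ2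
  -- the two independent events
  set S : Set X := {y | 2 * R < dist y (x a) ∧ dist y (x a) ≤ 4 * R} with hS
  have hSm : MeasurableSet S := by
    have : S = closedBall (x a) (4 * R) \ closedBall (x a) (2 * R) := by
      ext y; simp only [hS, mem_ofPred_eq, mem_sdiff, mem_closedBall, not_le]; tauto
    rw [this]
    exact isClosed_closedBall.measurableSet.diff isClosed_closedBall.measurableSet
  set E : Set (ℕ → X) := {q : ℕ → X | ∀ j ∈ Finset.range Δ, q j ∈ Sᶜ} \ CovFail 0 Δ (Z 0) (h 0)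
    with hE
  have hPE : Real.exp (-(4 * (C * 4 ^ d) * A)) / 2 ≤ (Pr μ).real E := by
    have h1 := shell_prob (μ := μ) hSm (Δ := Δ) (Z := Z 0) (h := h 0) (p := c * h 0 ^ d)
      (fun z => hR.lower z _ (hh 0).1 ((hh 0).2.trans hR1))
      (by have := (hh 0).1; positivity)
      (fun z hz => by
        refine Set.disjoint_left.2 fun y hy1 hy2 => ?_
        have h3 := mem_closedBall.1 (hZ2 0 z hz)
        have h4 := mem_closedBall.1 hy2
        have h5 := dist_triangle y z (x a)
        have h6 := (hh 0).2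
        have h7 := hy1.1
        linarith) (hZc.trans hQu)
    refine le_trans ?_ h1
    have hσ : μ.real S ≤ C * 4 ^ d * R ^ d := by
      calc μ.real S ≤ μ.real (closedBall (x a) (4 * R)) :=
            measureReal_mono fun y hy => mem_closedBall.2 hy.2
        _ ≤ C * (4 * R) ^ d := hR.upper _ _ (by positivity)
        _ = C * 4 ^ d * R ^ d := by rw [mul_pow]; ring
    have hσ2 : C * 4 ^ d * R ^ d ≤ 1 / 2 := by
      have h3 : (4 * R) ^ d ≤ 4 * R := pow_le_of_le_one (by positivity) (by linarith) (by omega)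
      calc C * 4 ^ d * R ^ d = C * (4 * R) ^ d := by rw [mul_pow]; ring
        _ ≤ C * (4 * R) := by gcongr
        _ ≤ 1 / 2 := by linarith
    have hexp : Real.exp (-(4 * (C * 4 ^ d) * A)) ≤ (1 - μ.real S) ^ Δ := by
      calc Real.exp (-(4 * (C * 4 ^ d) * A)) ≤ Real.exp (Δ * (-(2 * (C * 4 ^ d * R ^ d)))) := by
            rw [Real.exp_le_exp]
            have : 0 < C * 4 ^ d := by positivity
            nlinarith
        _ = (Real.exp (-(2 * (C * 4 ^ d * R ^ d)))) ^ Δ := by rw [Real.exp_nat_mul]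
        _ ≤ (1 - C * 4 ^ d * R ^ d) ^ Δ :=
            pow_le_pow_left₀ (Real.exp_pos _).le (exp_le_one_sub (by positivity) hσ2) _
        _ ≤ (1 - μ.real S) ^ Δ := pow_le_pow_left₀ (by linarith) (by linarith) _
    linarith
  have hEm : MeasurableSet E := by
    refine MeasurableSet.diff ?_ (measurableSet_covFail 0 Δ (Z 0) (h 0))
    have : {q : ℕ → X | ∀ j ∈ Finset.range Δ, q j ∈ Sᶜ} =
        ⋂ j ∈ Finset.range Δ, (fun q : ℕ → X => q j) ⁻¹' Sᶜ := by ext q; simp
    rw [this]
    exact Finset.measurableSet_biInter _ fun j _ => measurable_pi_apply j hSm.compl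
  have hEd : DepLt Δ E := by
    intro q q' hqq
    simp only [hE, mem_sdiff, mem_ofPred_eq, CovFail, mem_iUnion, Finset.mem_Ico, Finset.mem_range,
      exists_prop]
    refine and_congr (forall₂_congr fun j hj => by rw [hqq j hj]) (not_congr ?_)
    refine exists_congr fun z => and_congr_right fun _ => forall₂_congr fun j hj => ?_
    rw [hqq j hj.2]
  have hBm : MeasurableSet (Bad Δ h s Z (closedBall (x a) R)) :=
    MeasurableSet.iUnion fun k => (measurableSet_covFail _ _ _ _).union
      (measurableSet_blockEv _ _ _ isClosed_closedBall.measurableSet _)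
  have hBd : DepGe Δ (Bad Δ h s Z (closedBall (x a) R))ᶜ := by
    intro q q' hqq
    simp only [Bad, mem_compl_iff, mem_iUnion, mem_union]
    refine not_congr (exists_congr fun k => or_congr ?_ ?_)
    · exact covFail_depGe le_rfl _ _ q q' hqq
    · exact blockEv_depGe (Nat.le_mul_of_pos_left _ (by positivity)) _ _ _ q q' hqq
  have hind := indep_inter μ hEm hEd hBm.compl hBd
  have hPB : 1 / 2 ≤ (Pr μ).real (Bad Δ h s Z (closedBall (x a) R))ᶜ := by
    rw [probReal_compl_eq_one_sub hBm]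
    have : (Pr μ).real (Bad Δ h s Z (closedBall (x a) R)) ≤ Q / u0 := hP
    linarith
  have hsub : E ∩ (Bad Δ h s Z (closedBall (x a) R))ᶜ ⊆ {q | cat m x q ∈ Own a} := by
    rintro q ⟨⟨hq1, hq2⟩, hq3⟩
    refine mem_own (ρ := R / 2) (M := m + Δ) (by linarith) ?_
    refine phase_two hm ha hΔ0 hR0 (fun j hj hja => hRr.trans (hr j hj hja)) ?_
      (fun k => (hh k).1) hZ1 ?_ hq3 ?_
    · intro i hi hdi
      by_contra hcon
      push Not at hcon
      exact hq1 i (Finset.mem_range.2 hi) ⟨hcon, hdi⟩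
    · intro k
      refine (hsum k).trans ?_
      rw [mul_comm Q R, mul_div_assoc]
      nlinarith
    · intro z hz
      simp only [CovFail, mem_iUnion, mem_ofPred_eq, Finset.mem_Ico, exists_prop, not_exists,
        not_and] at hq2
      have h2 := hq2 z hz
      push Not at h2
      obtain ⟨j, hj, hdj⟩ := h2
      exact ⟨j, hj.2, hdj⟩
  calc Real.exp (-(4 * (C * 4 ^ d) * A)) / 2 * (1 / 2)
      ≤ (Pr μ).real E * (Pr μ).real (Bad Δ h s Z (closedBall (x a) R))ᶜ := by gcongr
    _ = (Pr μ).real (E ∩ (Bad Δ h s Z (closedBall (x a) R))ᶜ) := by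
        rw [measureReal_def, measureReal_def, measureReal_def, hind, ENNReal.toReal_mul]
    _ ≤ (Pr μ).real {q | cat m x q ∈ Own a} := measureReal_mono hsub (by finiteness)

lemma ae_dist_pos {μ : Measure X} [IsProbabilityMeasure μ] {d : ℕ} {c C : ℝ}
    (hR : Reg μ d c C) (a : ℕ) : ∀ᵐ x ∂(Pr μ), ∀ j, j ≠ a → 0 < dist (x j) (x a) := by
  rw [ae_all_iff]
  intro j
  by_cases hja : j = a
  · simp [hja]
  · have h1 : Pr μ {q : ℕ → X | dist (q j) (q a) ≤ 0} ≤ 0 := by
      refine pair_prob (fun x => ?_) hja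
      have := hR.upper x 0 le_rfl
      rw [zero_pow (by have := hR.hd; omega), mul_zero] at this
      rw [← ofReal_measureReal]
      simp only [nonpos_iff_eq_zero, ENNReal.ofReal_eq_zero]
      exact this
    have h2 : ∀ᵐ x ∂(Pr μ), ¬ (dist (x j) (x a) ≤ 0) := by
      rw [ae_iff]
      simp only [not_not]
      exact nonpos_iff_eq_zero.1 h1
    filter_upwards [h2] with x hx _
    exact not_le.1 hx

/-- Almost surely the vertex `a` owns a ball. -/
theorem ae_own {μ : Measure X} [IsProbabilityMeasure μ] {d : ℕ} {c C : ℝ}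
    (hR : Reg μ d c C) {a : ℕ} (ha : a < 2) : ∀ᵐ q ∂(Pr μ), q ∈ Own a := by
  obtain ⟨cs, hcs, hone⟩ := one_scale hR
  have hcond : ∀ (m : ℕ) (B : Set (ℕ → X)), 2 ≤ m → MeasurableSet B → DepLt m B →
      ENNReal.ofReal cs * Pr μ B ≤ Pr μ (B ∩ Own a) := by
    intro m B hm hB hBm
    refine cond_ge μ hB hBm (measurableSet_own a) ?_
    filter_upwards [ae_dist_pos hR a] with x hx _
    rw [← ofReal_measureReal]
    exact ENNReal.ofReal_le_ofReal (hone m a hm ha x fun j _ hja => hx j hja)
  set N : Set (ℕ → X) := (Own a)ᶜ with hN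
  have hNm : MeasurableSet N := (measurableSet_own a).compl
  have happ : ∀ ε : ℝ, 0 < ε → cs * (Pr μ).real N ≤ ε + cs * ε := by
    intro ε hε
    obtain ⟨t, ht, htN⟩ := exists_measure_symmDiff_lt_of_generateFrom_isSetRing
      (μ := Pr μ) (C := measurableCylinders (fun _ : ℕ => X)) isSetRing_measurableCylinders
      ⟨{univ}, countable_singleton _, by
        simpa using univ_mem_measurableCylinders (fun _ : ℕ => X), by simp⟩
      generateFrom_measurableCylinders.symm hNm (ε := ENNReal.ofReal ε) (by simpa using hε)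
    have htm : MeasurableSet t := MeasurableSet.of_mem_measurableCylinders ht
    rw [mem_measurableCylinders] at ht
    obtain ⟨I, T, -, rfl⟩ := ht
    have hdep : DepLt (I.sup id + 2) (cylinder I T) := by
      intro q q' hqq
      rw [mem_cylinder, mem_cylinder]
      have : I.restrict q = I.restrict q' := by
        ext ⟨i, hi⟩
        have h1 : i ≤ I.sup id := Finset.le_sup (f := id) hi
        exact hqq i (by omega)
      rw [this]
    have h1 := hcond _ _ (by omega) htm hdep
    have h2 := ENNReal.toReal_mono (by finiteness) h1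
    rw [ENNReal.toReal_mul, ENNReal.toReal_ofReal hcs.le] at h2
    have h3 : (Pr μ).real (symmDiff (cylinder I T) N) ≤ ε := by
      have := ENNReal.toReal_mono (by finiteness) htN.le
      rwa [ENNReal.toReal_ofReal hε.le] at this
    have h4 : (Pr μ).real (cylinder I T ∩ Own a) ≤ ε := by
      refine le_trans (measureReal_mono ?_ (by finiteness)) h3
      intro q hq
      left
      exact ⟨hq.1, fun h => h hq.2⟩
    have h5 : (Pr μ).real N ≤ (Pr μ).real (cylinder I T) + ε := by
      have h6 : N ⊆ cylinder I T ∪ symmDiff (cylinder I T) N := by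
        intro q hq
        by_cases hqt : q ∈ cylinder I T
        · exact Or.inl hqt
        · exact Or.inr (Or.inr ⟨hq, hqt⟩)
      refine (measureReal_mono h6 (by finiteness)).trans ((measureReal_union_le _ _).trans ?_)
      linarith
    calc cs * (Pr μ).real N ≤ cs * ((Pr μ).real (cylinder I T) + ε) := by gcongr
      _ = cs * (Pr μ).real (cylinder I T) + cs * ε := by ring
      _ ≤ ε + cs * ε := by
          have : cs * (Pr μ).real (cylinder I T) ≤ (Pr μ).real (cylinder I T ∩ Own a) := h2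
          linarith
  have h0 : (Pr μ).real N = 0 := by
    by_contra hne
    have hpos : 0 < (Pr μ).real N := lt_of_le_of_ne measureReal_nonneg (Ne.symm hne)
    have := happ (cs * (Pr μ).real N / (2 * (1 + cs))) (by positivity)
    have h2 : cs * (Pr μ).real N / (2 * (1 + cs)) + cs * (cs * (Pr μ).real N / (2 * (1 + cs))) =
        cs * (Pr μ).real N / 2 := by field_simp
    rw [h2] at this
    have : 0 < cs * (Pr μ).real N := by positivity
    linarith
  rw [measureReal_eq_zero_iff] at h0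
  rw [ae_iff]
  exact h0

end Pool.Agent.H95.NN
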