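import Pool.Agent.H95.NN.Seq

/-!
First moment bound for descending paths with short steps, covering events, nets.
-/

open MeasureTheory Set Metric

namespace Pool.Agent.H95.NN

variable {X : Type*} [PseudoMetricSpace X] [MeasurableSpace X] [OpensMeasurableSpace X]
  [SecondCountableTopology X]

/-- There is a descending path of length `s` from the index `i`, with indices at least `a`, steps
at most `h`, and last point in `U`. -/
def PathEv (a : ℕ) (h : ℝ) (U : Set X) : ℕ → ℕ → Set (ℕ → X)
  | 0, i => {q | q i ∈ U}
  | s + 1, i => ⋃ j ∈ Finset.Ico a i, ({q | dist (q i) (q j) ≤ h} ∩ PathEv a h U s j)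

omit [OpensMeasurableSpace X] [SecondCountableTopology X] [MeasurableSpace X] in
lemma pathEv_dep (a : ℕ) (h : ℝ) (U : Set X) (s : ℕ) :
    ∀ i q q', (∀ j, a ≤ j → j ≤ i → q j = q' j) → a ≤ i →
      (q ∈ PathEv a h U s i ↔ q' ∈ PathEv a h U s i) := by
  induction s with
  | zero =>
    intro i q q' hq hai
    simp only [PathEv, mem_ofPred_eq, hq i hai le_rfl]
  | succ s ih =>
    intro i q q' hq hai
    simp only [PathEv, mem_iUnion, Finset.mem_Ico, mem_inter_iff, mem_ofPred_eq, exists_prop]
    refine exists_congr fun j => and_congr_right fun hj => ?_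
    rw [hq i hai le_rfl, hq j hj.1 hj.2.le,
      ih j q q' (fun l h1 h2 => hq l h1 (h2.trans hj.2.le)) hj.1]

lemma measurableSet_pathEv (a : ℕ) (h : ℝ) {U : Set X} (hU : MeasurableSet U) (s : ℕ) :
    ∀ i, MeasurableSet (PathEv a h U s i) := by
  induction s with
  | zero => intro i; exact measurable_pi_apply i hU
  | succ s ih =>
    intro i
    refine Finset.measurableSet_biUnion _ fun j _ => MeasurableSet.inter ?_ (ih j)
    exact measurableSet_le ((measurable_pi_apply i).dist (measurable_pi_apply j)) measurable_const

variable (μ : Measure X) [IsProbabilityMeasure μ]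

lemma pathEv_le (a : ℕ) (h : ℝ) {U : Set X} (hU : MeasurableSet U) {v : ENNReal}
    (hv : ∀ x, μ (closedBall x h) ≤ v) (s : ℕ) :
    ∀ i, a ≤ i → Pr μ (PathEv a h U s i) ≤ μ U * v ^ s * ((i - a).choose s : ℕ) := by
  induction s with
  | zero =>
    intro i _
    have : PathEv a h U 0 i = (fun q : ℕ → X => q i) ⁻¹' U := rfl
    rw [this, ← Measure.map_apply (measurable_pi_apply i) hU, Measure.infinitePi_map_eval]
    simp
  | succ s ih =>
    intro i hai
    calc Pr μ (PathEv a h U (s + 1) i)
        ≤ ∑ j ∈ Finset.Ico a i, Pr μ ({q | dist (q i) (q j) ≤ h} ∩ PathEv a h U s j) :=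
          measure_biUnion_finset_le _ _
      _ ≤ ∑ j ∈ Finset.Ico a i, v * (μ U * v ^ s * ((j - a).choose s : ℕ)) := by
          refine Finset.sum_le_sum fun j hj => ?_
          rw [Finset.mem_Ico] at hj
          rw [inter_comm]
          refine (cond_le μ (m := i) (measurableSet_pathEv a h hU s j) ?_ ?_ ?_).trans
            (mul_le_mul_right (ih j hj.1) v)
          · intro q q' hq
            exact pathEv_dep a h U s j q q' (fun l _ h2 => hq l (h2.trans_lt hj.2)) hj.1
          · exact measurableSet_le ((measurable_pi_apply i).dist (measurable_pi_apply j))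
              measurable_const
          · intro x _
            have : {q | cat i x q ∈ {q : ℕ → X | dist (q i) (q j) ≤ h}} =
                (fun q : ℕ → X => q 0) ⁻¹' (closedBall (x j) h) := by
              ext q
              have h1 : cat i x q i = q 0 := by simpa using cat_add (m := i) (x := x) (q := q) 0
              simp [h1, cat_lt hj.2]
            rw [this, ← Measure.map_apply (measurable_pi_apply 0) isClosed_closedBall.measurableSet,
              Measure.infinitePi_map_eval]
            exact hv _
      _ = μ U * v ^ (s + 1) * ∑ j ∈ Finset.Ico a i, ((j - a).choose s : ENNReal) := by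
          rw [Finset.mul_sum]
          refine Finset.sum_congr rfl fun j _ => ?_
          ring
      _ = μ U * v ^ (s + 1) * ((i - a).choose (s + 1) : ℕ) := by
          congr 1
          rw [← Nat.cast_sum]
          congr 1
          obtain ⟨n, rfl⟩ := Nat.exists_eq_add_of_le hai
          rw [Finset.sum_Ico_eq_sum_range]
          simp only [Nat.add_sub_cancel_left]
          clear hai
          induction n with
          | zero => simp
          | succ n ihn => rw [Finset.sum_range_succ, ihn, Nat.choose_succ_succ n s, add_comm]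

/-- Some index in the block `[a, b)` starts a descending path of length `s`. -/
def BlockEv (a b : ℕ) (h : ℝ) (U : Set X) (s : ℕ) : Set (ℕ → X) :=
  ⋃ i ∈ Finset.Ico a b, PathEv a h U s i

lemma measurableSet_blockEv (a b : ℕ) (h : ℝ) {U : Set X} (hU : MeasurableSet U) (s : ℕ) :
    MeasurableSet (BlockEv a b h U s) :=
  Finset.measurableSet_biUnion _ fun i _ => measurableSet_pathEv a h hU s i

lemma blockEv_le {a b : ℕ} (hab : a ≤ b) (h : ℝ) {U : Set X} (hU : MeasurableSet U) {v : ENNReal}
    (hv : ∀ x, μ (closedBall x h) ≤ v) (s : ℕ) :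
    Pr μ (BlockEv a b h U s) ≤ μ U * v ^ s * ((b - a).choose (s + 1) : ℕ) := by
  calc Pr μ (BlockEv a b h U s) ≤ ∑ i ∈ Finset.Ico a b, Pr μ (PathEv a h U s i) :=
        measure_biUnion_finset_le _ _
    _ ≤ ∑ i ∈ Finset.Ico a b, μ U * v ^ s * ((i - a).choose s : ℕ) :=
        Finset.sum_le_sum fun i hi => pathEv_le μ a h hU hv s i (Finset.mem_Ico.1 hi).1
    _ = μ U * v ^ s * ∑ j ∈ Finset.Ico a b, ((j - a).choose s : ENNReal) := by
        rw [Finset.mul_sum]
    _ = μ U * v ^ s * ((b - a).choose (s + 1) : ℕ) := by
        congr 1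
        rw [← Nat.cast_sum]
        congr 1
        obtain ⟨n, rfl⟩ := Nat.exists_eq_add_of_le hab
        rw [Finset.sum_Ico_eq_sum_range]
        simp only [Nat.add_sub_cancel_left]
        clear hab
        induction n with
        | zero => simp
        | succ n ihn => rw [Finset.sum_range_succ, ihn, Nat.choose_succ_succ n s, add_comm]

omit [OpensMeasurableSpace X] [SecondCountableTopology X] [MeasurableSpace X] in
lemma blockEv_depGe {a b m : ℕ} (hma : m ≤ a) (h : ℝ) (U : Set X) (s : ℕ) :
    DepGe m (BlockEv a b h U s) := by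
  intro q q' hq
  simp only [BlockEv, mem_iUnion, Finset.mem_Ico, exists_prop]
  refine exists_congr fun i => and_congr_right fun hi => ?_
  exact pathEv_dep a h U s i q q' (fun j h1 _ => hq j (hma.trans h1)) hi.1

end Pool.Agent.H95.NN
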