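import Mathlib

/-!
Infinite i.i.d. sequences: concatenation of a prefix and a tail, independence of the first
coordinates and the later ones, and the first moment bound for descending paths.
-/

open MeasureTheory Set

namespace Pool.Agent.H95.NN

variable {X : Type*} [MeasurableSpace X]

/-- The law of an i.i.d. sequence. -/
noncomputable abbrev Pr (μ : Measure X) : Measure (ℕ → X) := Measure.infinitePi (fun _ : ℕ => μ)

/-- Concatenate the first `m` coordinates of `x` and the sequence `q`. -/
def cat (m : ℕ) (x q : ℕ → X) : ℕ → X := fun i => if i < m then x i else q (i - m)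

omit [MeasurableSpace X] in
lemma cat_lt {m : ℕ} {x q : ℕ → X} {i : ℕ} (h : i < m) : cat m x q i = x i := by
  simp [cat, h]

omit [MeasurableSpace X] in
lemma cat_add {m : ℕ} {x q : ℕ → X} (i : ℕ) : cat m x q (m + i) = q i := by
  simp [cat]

omit [MeasurableSpace X] in
lemma cat_ge {m : ℕ} {x q : ℕ → X} {i : ℕ} (h : m ≤ i) : cat m x q i = q (i - m) := by
  simp [cat, not_lt.2 h]

lemma measurable_cat (m : ℕ) :
    Measurable (fun z : (ℕ → X) × (ℕ → X) => cat m z.1 z.2) := by
  rw [measurable_pi_iff]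
  intro i
  by_cases h : i < m
  · simp only [cat, h, if_true]; fun_prop
  · simp only [cat, h, if_false]; fun_prop

lemma measurable_cat_right (m : ℕ) (x : ℕ → X) :
    Measurable (fun q : ℕ → X => cat m x q) :=
  (measurable_cat m).comp (measurable_const.prodMk measurable_id)

variable (μ : Measure X) [IsProbabilityMeasure μ]

lemma map_cat (m : ℕ) :
    Measure.map (fun z : (ℕ → X) × (ℕ → X) => cat m z.1 z.2) ((Pr μ).prod (Pr μ)) = Pr μ := by
  classical
  refine Measure.eq_infinitePi _ fun s t ht => ?_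
  rw [Measure.map_apply (measurable_cat m) (.pi s.countable_toSet fun _ _ => ht _)]
  have key : (fun z : (ℕ → X) × (ℕ → X) => cat m z.1 z.2) ⁻¹' ((s : Set ℕ).pi t) =
      ((↑(s.filter (fun i => i < m)) : Set ℕ).pi t) ×ˢ
      ((↑((s.filter (fun i => ¬ i < m)).image (fun i => i - m)) : Set ℕ).pi
        (fun j => t (j + m))) := by
    ext ⟨x, q⟩
    simp only [mem_preimage, Set.mem_pi, Finset.mem_coe, mem_prod, Finset.mem_filter,
      Finset.mem_image]
    constructor
    · intro h
      refine ⟨fun i hi => ?_, fun j hj => ?_⟩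
      · have := h i hi.1
        rwa [cat_lt hi.2] at this
      · obtain ⟨i, ⟨his, him⟩, rfl⟩ := hj
        have := h i his
        rw [cat_ge (not_lt.1 him)] at this
        rwa [Nat.sub_add_cancel (not_lt.1 him)]
    · rintro ⟨h1, h2⟩ i hi
      by_cases him : i < m
      · rw [cat_lt him]; exact h1 i ⟨hi, him⟩
      · rw [cat_ge (not_lt.1 him)]
        have := h2 (i - m) ⟨i, ⟨hi, him⟩, rfl⟩
        rwa [Nat.sub_add_cancel (not_lt.1 him)] at this
  rw [key, Measure.prod_prod, Measure.infinitePi_pi _ (fun i _ => ht i),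
    Measure.infinitePi_pi _ (fun i _ => ht _), Finset.prod_image]
  · rw [← Finset.prod_filter_mul_prod_filter_not s (fun i => i < m)]
    congr 1
    refine Finset.prod_congr rfl fun i hi => ?_
    rw [Nat.sub_add_cancel (not_lt.1 (Finset.mem_filter.1 hi).2)]
  · intro i hi j hj hij
    simp only [Finset.coe_filter, mem_ofPred_eq, not_lt] at hi hj
    have : i - m = j - m := hij
    omega

/-- `A` depends only on the coordinates below `m`. -/
def DepLt (m : ℕ) (A : Set (ℕ → X)) : Prop :=
  ∀ q q' : ℕ → X, (∀ i < m, q i = q' i) → (q ∈ A ↔ q' ∈ A)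

/-- `A` depends only on the coordinates at least `m`. -/
def DepGe (m : ℕ) (A : Set (ℕ → X)) : Prop :=
  ∀ q q' : ℕ → X, (∀ i, m ≤ i → q i = q' i) → (q ∈ A ↔ q' ∈ A)

omit [MeasurableSpace X] in
lemma DepLt.cat_mem {m : ℕ} {A : Set (ℕ → X)} (h : DepLt m A) (x q : ℕ → X) :
    cat m x q ∈ A ↔ x ∈ A :=
  h _ _ fun _ hi => cat_lt hi

lemma prod_eq {A : Set (ℕ → X)} (hA : MeasurableSet A) (m : ℕ) :
    Pr μ A = ∫⁻ x, Pr μ {q | cat m x q ∈ A} ∂(Pr μ) := by
  conv_lhs => rw [← map_cat μ m]
  rw [Measure.map_apply (measurable_cat m) hA, Measure.prod_apply (measurable_cat m hA)]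
  rfl

/-- Conditioning on the first `m` coordinates: upper bound. -/
lemma cond_le {m : ℕ} {A B : Set (ℕ → X)} (hA : MeasurableSet A) (hAm : DepLt m A)
    (hB : MeasurableSet B) {v : ENNReal}
    (hv : ∀ x ∈ A, Pr μ {q | cat m x q ∈ B} ≤ v) : Pr μ (A ∩ B) ≤ v * Pr μ A := by
  rw [prod_eq μ (hA.inter hB) m]
  calc ∫⁻ x, Pr μ {q | cat m x q ∈ A ∩ B} ∂(Pr μ)
      ≤ ∫⁻ x, A.indicator (fun _ => v) x ∂(Pr μ) := by
        refine lintegral_mono fun x => ?_
        by_cases hx : x ∈ A
        · rw [indicator_of_mem hx]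
          refine le_trans (measure_mono ?_) (hv x hx)
          intro q hq; exact hq.2
        · rw [indicator_of_notMem hx]
          have : {q | cat m x q ∈ A ∩ B} = ∅ := by
            ext q
            simp only [mem_ofPred_eq, mem_inter_iff, hAm.cat_mem, hx, false_and, mem_empty_iff_false]
          rw [this, measure_empty]
    _ = v * Pr μ A := by rw [lintegral_indicator hA]; simp

/-- Conditioning on the first `m` coordinates: lower bound. -/
lemma cond_ge {m : ℕ} {A B : Set (ℕ → X)} (hA : MeasurableSet A) (hAm : DepLt m A)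
    (hB : MeasurableSet B) {v : ENNReal}
    (hv : ∀ᵐ x ∂(Pr μ), x ∈ A → v ≤ Pr μ {q | cat m x q ∈ B}) :
    v * Pr μ A ≤ Pr μ (A ∩ B) := by
  rw [prod_eq μ (hA.inter hB) m]
  calc v * Pr μ A = ∫⁻ x, A.indicator (fun _ => v) x ∂(Pr μ) := by
        rw [lintegral_indicator hA]; simp
    _ ≤ ∫⁻ x, Pr μ {q | cat m x q ∈ A ∩ B} ∂(Pr μ) := by
        refine lintegral_mono_ae ?_
        filter_upwards [hv] with x hx
        by_cases hxA : x ∈ A
        · rw [indicator_of_mem hxA]
          refine le_trans (hx hxA) (measure_mono ?_)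
          intro q hq
          exact ⟨(hAm.cat_mem x q).2 hxA, hq⟩
        · rw [indicator_of_notMem hxA]; exact zero_le

/-- The first `m` coordinates are independent of the later ones. -/
lemma indep_inter {m : ℕ} {A B : Set (ℕ → X)} (hA : MeasurableSet A) (hAm : DepLt m A)
    (hB : MeasurableSet B) (hBm : DepGe m B) : Pr μ (A ∩ B) = Pr μ A * Pr μ B := by
  have hX : Nonempty (ℕ → X) := by
    by_contra hne
    rw [not_nonempty_iff] at hne
    have h1 : Pr μ (univ : Set (ℕ → X)) = 1 := measure_univ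
    rw [univ_eq_empty_iff.2 hne, measure_empty] at h1
    exact zero_ne_one h1
  obtain ⟨x0⟩ := hX
  have hconst : ∀ x, Pr μ {q | cat m x q ∈ B} = Pr μ {q | cat m x0 q ∈ B} := by
    intro x
    congr 1
    ext q
    exact hBm _ _ fun i hi => by rw [cat_ge hi, cat_ge hi]
  have hPB : Pr μ B = Pr μ {q | cat m x0 q ∈ B} := by
    rw [prod_eq μ hB m]
    simp [hconst]
  rw [mul_comm]
  refine le_antisymm (cond_le μ hA hAm hB fun x _ => ?_) (cond_ge μ hA hAm hB ?_)
  · rw [hconst x, hPB]
  · exact Filter.Eventually.of_forall fun x _ => by rw [hconst x, hPB]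

end Pool.Agent.H95.NN
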