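import Pool.Agent.H95.NN.Local
import Pool.Agent.H95.NN.Chain

/-!
All subtrees hanging from late vertices are small.
-/

open MeasureTheory Set Metric

namespace Pool.Agent.H95.NN

variable {X : Type*} [PseudoMetricSpace X]

/-- `i` is a descendant of `t` (or `t` itself). -/
def Desc (q : ℕ → X) (t i : ℕ) : Prop := ∃ m, (par q)^[m] i = t

open Classical in
/-- The number of descendants of `t` among the first `n` vertices. -/
noncomputable def dcount (q : ℕ → X) (t n : ℕ) : ℕ :=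
  ((Finset.range n).filter (fun i => Desc q t i)).card

/-- The exceptional event of the local lemma. -/
def Bad (Δ : ℕ) (h : ℕ → ℝ) (s : ℕ → ℕ) (Z : ℕ → Finset X) (U : Set X) : Set (ℕ → X) :=
  ⋃ k, (CovFail Δ (2 ^ (k + 1) * Δ) (Z (k + 1)) (h (k + 1)) ∪
          BlockEv (2 ^ k * Δ) (2 ^ (k + 1) * Δ) (2 * h k) U (s k))

lemma not_bad_cov {Δ : ℕ} {h : ℕ → ℝ} {s : ℕ → ℕ} {Z : ℕ → Finset X} {U : Set X} {q : ℕ → X}
    (hq : q ∉ Bad Δ h s Z U) {k : ℕ} (hk : 1 ≤ k) {y z : X} (hz : z ∈ Z k)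
    (hyz : dist y z ≤ h k) : ∃ j, Δ ≤ j ∧ j < 2 ^ k * Δ ∧ dist y (q j) ≤ 2 * h k := by
  obtain ⟨k, rfl⟩ : ∃ k', k = k' + 1 := ⟨k - 1, by omega⟩
  simp only [Bad, mem_iUnion, mem_union, not_exists, not_or] at hq
  have h1 := (hq k).1
  simp only [CovFail, mem_iUnion, mem_ofPred_eq, Finset.mem_Ico, exists_prop, not_exists,
    not_and] at h1
  have h2 := h1 z hz
  push Not at h2
  obtain ⟨j, hj, hd⟩ := h2
  refine ⟨j, hj.1, hj.2, ?_⟩
  have := dist_triangle_right y (q j) z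
  linarith

lemma not_bad_path {Δ : ℕ} {h : ℕ → ℝ} {s : ℕ → ℕ} {Z : ℕ → Finset X} {U : Set X} {q : ℕ → X}
    (hq : q ∉ Bad Δ h s Z U) (k : ℕ) (g : ℕ → ℕ)
    (h1 : ∀ l ≤ s k, 2 ^ k * Δ ≤ g l ∧ g l < 2 ^ (k + 1) * Δ ∧ q (g l) ∈ U)
    (h2 : ∀ l < s k, g (l + 1) < g l ∧ dist (q (g l)) (q (g (l + 1))) ≤ 2 * h k) : False := by
  simp only [Bad, mem_iUnion, mem_union, not_exists, not_or] at hq
  refine (hq k).2 ?_
  simp only [BlockEv, mem_iUnion, Finset.mem_Ico, exists_prop]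
  exact ⟨g 0, ⟨(h1 0 (Nat.zero_le _)).1, (h1 0 (Nat.zero_le _)).2.1⟩,
    mem_pathEv (s k) g (fun l hl => (h1 l hl).1) h2 (h1 _ le_rfl).2.2⟩

lemma exists_lt_pow_mul {Δ : ℕ} (hΔ : 0 < Δ) (i : ℕ) : ∃ k, 1 ≤ k ∧ i < 2 ^ k * Δ := by
  refine ⟨i + 1, by omega, ?_⟩
  have h1 : i + 1 < 2 ^ (i + 1) := Nat.lt_two_pow_self
  nlinarith

/-- Outside the exceptional event, descendants of a late vertex are close to it. -/
lemma desc_dist {Δ : ℕ} {h : ℕ → ℝ} {s : ℕ → ℕ} {Z : ℕ → Finset X} {q : ℕ → X} {ρ : ℝ}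
    (hΔ : 0 < Δ) (hh : ∀ k, 0 < h k) (hZ : ∀ k, ∀ y : X, ∃ z ∈ Z k, dist y z ≤ h k)
    (hsum : ∀ k, ∑ l ∈ Finset.range k, (s l : ℝ) * (2 * h l) ≤ ρ)
    (hq : q ∉ Bad Δ h s Z univ) {t i : ℕ} (ht : 2 * Δ ≤ t) (hi : Desc q t i) :
    dist (q i) (q t) ≤ ρ := by
  obtain ⟨k, hk1, hk⟩ := exists_lt_pow_mul hΔ i
  obtain ⟨n, hn, hd⟩ := chain_follow (q := q) (U := univ) (N := fun k => 2 ^ k * Δ) (h := h)
    (s := s) (fun k => (hh k).le) (k0 := 1)
    (fun a b hab => Nat.mul_le_mul_right _ (Nat.pow_le_pow_right (by norm_num) hab))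
    (by positivity)
    (fun k hk y _ => by
      obtain ⟨z, hz, hyz⟩ := hZ k y
      obtain ⟨j, _, hj2, hj3⟩ := not_bad_cov hq hk hz hyz
      exact ⟨j, hj2, hj3⟩)
    (fun k _ g h1 h2 => not_bad_path hq k g h1 h2) k hk1 i hk (subset_univ _)
  obtain ⟨m, rfl⟩ := hi
  have hmn : m ≤ n := by
    by_contra hcon
    push Not at hcon
    obtain ⟨m', rfl⟩ : ∃ m', m = m' + n := ⟨m - n, by omega⟩
    rw [Function.iterate_add_apply] at ht
    have := iter_le q m' ((par q)^[n] i)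
    simp only [pow_one] at hn
    omega
  exact (hd m hmn).trans (hsum k)

variable [MeasurableSpace X] [OpensMeasurableSpace X] [SecondCountableTopology X]

lemma pair_prob {μ : Measure X} [IsProbabilityMeasure μ] {r : ℝ} {v : ENNReal}
    (hv : ∀ x, μ (closedBall x r) ≤ v) {i j : ℕ} (hij : i ≠ j) :
    Pr μ {q | dist (q i) (q j) ≤ r} ≤ v := by
  wlog hlt : j < i generalizing i j
  · have h1 := this hij.symm (by omega)
    simpa only [dist_comm] using h1
  have h1 := cond_le μ (m := i) (A := univ) (B := {q : ℕ → X | dist (q i) (q j) ≤ r})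
    MeasurableSet.univ (fun _ _ _ => Iff.rfl)
    (measurableSet_le ((measurable_pi_apply i).dist (measurable_pi_apply j)) measurable_const)
    (v := v) (fun x _ => by
      have : {q | cat i x q ∈ {q : ℕ → X | dist (q i) (q j) ≤ r}} =
          (fun q : ℕ → X => q 0) ⁻¹' (closedBall (x j) r) := by
        ext q
        have h1 : cat i x q i = q 0 := by simpa using cat_add (m := i) (x := x) (q := q) 0
        simp [h1, cat_lt hlt]
      rw [this, ← Measure.map_apply (measurable_pi_apply 0) isClosed_closedBall.measurableSet,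
        Measure.infinitePi_map_eval]
      exact hv _)
  simpa using h1

/-- Few vertices are close together: no set of more than `δ n` indices has diameter at most `r`. -/
lemma cluster_prob {μ : Measure X} [IsProbabilityMeasure μ] {r v δ : ℝ} (hv0 : 0 ≤ v)
    (hv : ∀ x, μ (closedBall x r) ≤ ENNReal.ofReal v) (hδ : 0 < δ) {n : ℕ} (hn : 2 ≤ δ * n) :
    (Pr μ).real {q : ℕ → X | ∃ D : Finset ℕ, D ⊆ Finset.range n ∧ δ * n < D.card ∧
      ∀ i ∈ D, ∀ j ∈ D, dist (q i) (q j) ≤ r} ≤ 2 * v / δ ^ 2 := by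
  classical
  set S := (Finset.range n).offDiag with hS
  let E : ℕ × ℕ → Set (ℕ → X) := fun p => {q | dist (q p.1) (q p.2) ≤ r}
  have hE : ∀ p, MeasurableSet (E p) := fun p =>
    measurableSet_le ((measurable_pi_apply _).dist (measurable_pi_apply _)) measurable_const
  let F : (ℕ → X) → ENNReal := fun q => ∑ p ∈ S, (E p).indicator 1 q
  have hFm : Measurable F := Finset.measurable_fun_sum _ fun p _ =>
    (measurable_one.indicator (hE p))
  have hn0 : (0 : ℝ) < n := by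
    by_contra hcon
    have : (n : ℝ) ≤ 0 := not_lt.1 hcon
    nlinarith
  have hF : ∫⁻ q, F q ∂(Pr μ) ≤ ENNReal.ofReal (n ^ 2 * v) := by
    rw [lintegral_finsetSum _ fun p _ => (measurable_one.indicator (hE p))]
    calc ∑ p ∈ S, ∫⁻ q, (E p).indicator 1 q ∂(Pr μ) = ∑ p ∈ S, Pr μ (E p) := by
          refine Finset.sum_congr rfl fun p _ => ?_
          rw [lintegral_indicator_one (hE p)]
      _ ≤ ∑ _p ∈ S, ENNReal.ofReal v := by
          refine Finset.sum_le_sum fun p hp => pair_prob hv ?_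
          exact (Finset.mem_offDiag.1 hp).2.2
      _ = (S.card : ENNReal) * ENNReal.ofReal v := by simp
      _ ≤ ENNReal.ofReal (n ^ 2) * ENNReal.ofReal v := by
          gcongr
          rw [hS, Finset.offDiag_card, Finset.card_range, ← ENNReal.ofReal_natCast]
          refine ENNReal.ofReal_le_ofReal ?_
          have : ((n * n - n : ℕ) : ℝ) ≤ ((n * n : ℕ) : ℝ) := by exact_mod_cast Nat.sub_le _ _
          push_cast at this ⊢
          nlinarith
      _ = ENNReal.ofReal (n ^ 2 * v) := by rw [ENNReal.ofReal_mul (by positivity)]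
  have hsub : {q : ℕ → X | ∃ D : Finset ℕ, D ⊆ Finset.range n ∧ δ * n < D.card ∧
      ∀ i ∈ D, ∀ j ∈ D, dist (q i) (q j) ≤ r} ⊆
      {q | ENNReal.ofReal ((δ * n) ^ 2 / 2) ≤ F q} := by
    rintro q ⟨D, hD1, hD2, hD3⟩
    have h1 : F q ≥ (D.offDiag.card : ENNReal) := by
      calc (D.offDiag.card : ENNReal) = ∑ p ∈ D.offDiag, (E p).indicator 1 q := by
            rw [Finset.sum_congr rfl (g := fun _ => (1 : ENNReal))]
            · simp
            · intro p hp
              rw [Finset.mem_offDiag] at hp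
              exact indicator_of_mem (show q ∈ E p from hD3 _ hp.1 _ hp.2.1) _
        _ ≤ F q := Finset.sum_le_sum_of_subset (Finset.offDiag_mono hD1)
    refine le_trans ?_ h1
    rw [Finset.offDiag_card, ← ENNReal.ofReal_natCast]
    refine ENNReal.ofReal_le_ofReal ?_
    have h3 : ((D.card * D.card - D.card : ℕ) : ℝ) = D.card * D.card - D.card := by
      rw [Nat.cast_sub (Nat.le_mul_self _)]; push_cast; ring
    rw [h3]
    nlinarith
  have hpos : 0 < (δ * n) ^ 2 / 2 := by positivity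
  have h4 : Pr μ {q | ENNReal.ofReal ((δ * n) ^ 2 / 2) ≤ F q} ≤
      ENNReal.ofReal (2 * v / δ ^ 2) := by
    refine (meas_ge_le_lintegral_div hFm.aemeasurable ?_ ENNReal.ofReal_ne_top).trans ?_
    · simp only [ne_eq, ENNReal.ofReal_eq_zero, not_le]; exact hpos
    · refine (ENNReal.div_le_div_right hF _).trans ?_
      rw [← ENNReal.ofReal_div_of_pos hpos]
      refine ENNReal.ofReal_le_ofReal (le_of_eq ?_)
      field_simp
  have h5 := (measureReal_mono (μ := Pr μ) hsub (by finiteness)).trans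
    (ENNReal.toReal_mono (by finiteness) h4)
  rwa [ENNReal.toReal_ofReal (by positivity)] at h5

omit [MeasurableSpace X] [OpensMeasurableSpace X] [SecondCountableTopology X] in
lemma NetProp.mono {U : Set X} {R : ℝ} {d : ℕ} {C1 C2 : ℝ} (h : NetProp U R d C1)
    (h12 : C1 ≤ C2) (hR : 0 < R) : NetProp U R d C2 := by
  intro r hr hrR
  obtain ⟨Z, h1, h2, h3⟩ := h r hr hrR
  exact ⟨Z, h1, h2, h3.trans (by gcongr)⟩

/-- Late vertices have small subtrees. -/
theorem small_subtrees {μ : Measure X} [IsProbabilityMeasure μ] {d : ℕ} {c C : ℝ}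
    (hR : Reg μ d c C) {δ ε : ℝ} (hδ : 0 < δ) (hε : 0 < ε) :
    ∃ K : ℕ, 0 < K ∧ ∀ n : ℕ,
      (Pr μ).real {q : ℕ → X | ∃ t, K ≤ t ∧ t < n ∧ δ * n < dcount q t n} ≤ ε := by
  classical
  have hd := hR.hd
  have hC := hR.hC
  have hC1 : 0 < 6 ^ d * C / c + 1 := by have := hR.hc; positivity
  obtain ⟨Q, hQ, hloc⟩ := local_lemma hR hC1
  obtain ⟨m, hm⟩ := exists_nat_ge (max (max 1 (2 * Q)) (max (2 / δ) ((Q + 4 * C * Q / δ ^ 2) / ε)))
  simp only [max_le_iff] at hm
  obtain ⟨⟨hm1, hm2⟩, hm3, hm4⟩ := hm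
  have hm0 : (0 : ℝ) < m := by linarith
  have hmD : (m : ℝ) ≤ (m : ℝ) ^ DD d := le_self_pow₀ hm1 (DD_pos hd).ne'
  have hΔpos : 0 < m ^ DD d := Nat.pow_pos (by exact_mod_cast hm0)
  refine ⟨2 * m ^ DD d, by positivity, fun n => ?_⟩
  obtain ⟨h, s, Z, hh, hZ1, -, hsum, hP, -⟩ := hloc m hm1 1 one_pos le_rfl univ MeasurableSet.univ
    ((netProp_univ hR).mono (by linarith) one_pos)
    (by
      have : 0 < 6 ^ d * C / c := by have := hR.hc; positivity
      simp only [probReal_univ, one_pow, mul_one]; linarith) (m ^ DD d)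
    (by push_cast; simp)
    (by push_cast; rw [one_pow, mul_one]; have : (0 : ℝ) < (m : ℝ) ^ DD d := by positivity
        linarith)
  by_cases hn : 2 * m ^ DD d < n
  swap
  · have : {q : ℕ → X | ∃ t, 2 * m ^ DD d ≤ t ∧ t < n ∧ δ * n < dcount q t n} = ∅ := by
      ext q
      simp only [mem_ofPred_eq, mem_empty_iff_false, iff_false]
      rintro ⟨t, h1, h2, _⟩
      omega
    rw [this]; simp [hε.le]
  have hδn : 2 ≤ δ * n := by
    have h1 : (2 * m ^ DD d : ℝ) < n := by exact_mod_cast hn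
    have h2 : 2 / δ ≤ n := by
      calc 2 / δ ≤ m := hm3
        _ ≤ (m : ℝ) ^ DD d := hmD
        _ ≤ 2 * (m : ℝ) ^ DD d := by
            have : (0 : ℝ) < (m : ℝ) ^ DD d := by positivity
            linarith
        _ ≤ n := h1.le
    rw [div_le_iff₀ hδ] at h2
    linarith
  set v : ℝ := C * (2 * (Q / m)) ^ d with hv
  have hv0 : 0 ≤ v := by positivity
  have hsub : {q : ℕ → X | ∃ t, 2 * m ^ DD d ≤ t ∧ t < n ∧ δ * n < dcount q t n} ⊆
      Bad (m ^ DD d) h s Z univ ∪ {q : ℕ → X | ∃ D : Finset ℕ, D ⊆ Finset.range n ∧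
        δ * n < D.card ∧ ∀ i ∈ D, ∀ j ∈ D, dist (q i) (q j) ≤ 2 * (Q / m)} := by
    rintro q ⟨t, ht1, ht2, ht3⟩
    by_cases hq : q ∈ Bad (m ^ DD d) h s Z univ
    · exact Or.inl hq
    · refine Or.inr ⟨(Finset.range n).filter (fun i => Desc q t i), Finset.filter_subset _ _,
        ?_, fun i hi j hj => ?_⟩
      · simpa [dcount] using ht3
      · have key : ∀ i, Desc q t i → dist (q i) (q t) ≤ Q / m := fun i hi =>
          desc_dist hΔpos (fun k => (hh k).1) (fun k y => hZ1 k y (mem_univ _))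
            (fun k => by have := hsum k; rwa [mul_one] at this) hq ht1 hi
        have h1 := key i (Finset.mem_filter.1 hi).2
        have h2 := key j (Finset.mem_filter.1 hj).2
        have h3 := dist_triangle_right (q i) (q j) (q t)
        linarith
  refine (measureReal_mono hsub (by finiteness)).trans ((measureReal_union_le _ _).trans ?_)
  have hcl := cluster_prob (μ := μ) (r := 2 * (Q / m)) hv0 (fun x => by
    rw [← ofReal_measureReal]
    exact ENNReal.ofReal_le_ofReal (hR.upper x _ (by positivity))) hδ hδn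
  have hv1 : v ≤ C * (2 * (Q / m)) := by
    rw [hv]
    have h1 : 2 * (Q / m) ≤ 1 := by
      rw [← mul_div_assoc, div_le_one hm0]; exact hm2
    have h2 : (2 * (Q / m)) ^ d ≤ 2 * (Q / m) := pow_le_of_le_one (by positivity) h1 (by omega)
    gcongr
  calc (Pr μ).real (Bad (m ^ DD d) h s Z univ) + _ ≤ Q / m + 2 * v / δ ^ 2 := add_le_add hP hcl
    _ ≤ Q / m + 2 * (C * (2 * (Q / m))) / δ ^ 2 := by gcongr
    _ = (Q + 4 * C * Q / δ ^ 2) / m := by ring
    _ ≤ ε := by
        rw [div_le_iff₀ hm0]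
        rw [div_le_iff₀ hε] at hm4
        linarith

end Pool.Agent.H95.NN
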