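import Pool.Agent.H95.NN.Graph

/-!
The torus: volume bounds and scaling.
-/

open MeasureTheory Set Metric ProbabilityTheory

namespace Pool.Agent.H95.NN

instance : Fact (0 < (1 : ℝ)) := ⟨one_pos⟩

instance instProbUnif (d : ℕ) (L : ℝ) [Fact (0 < L)] : IsProbabilityMeasure (unif d L) :=
  Measure.isProbabilityMeasure_map (WithLp.measurable_toLp 2 _).aemeasurable

lemma haar_closedBall (x : AddCircle (1 : ℝ)) (r : ℝ) :
    (AddCircle.haarAddCircle : Measure (AddCircle (1 : ℝ))) (closedBall x r) =
      ENNReal.ofReal (min 1 (2 * r)) := by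
  have h1 := AddCircle.volume_closedBall (T := (1 : ℝ)) (x := x) r
  rw [AddCircle.volume_eq_smul_haarAddCircle] at h1
  simpa using h1

lemma pi_box (d : ℕ) (x : Fin d → AddCircle (1 : ℝ)) (r : ℝ) :
    (Measure.pi (fun _ : Fin d => (AddCircle.haarAddCircle : Measure (AddCircle (1 : ℝ)))))
      (Set.univ.pi fun k => closedBall (x k) r) = ENNReal.ofReal (min 1 (2 * r)) ^ d := by
  rw [Measure.pi_pi]
  simp [haar_closedBall]

lemma torus_reg {d : ℕ} (hd : 1 ≤ d) :
    Reg (unif d 1) d ((1 / (d : ℝ)) ^ d) (2 ^ d) where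
  hd := hd
  hc := by positivity
  hC := one_le_pow₀ (by norm_num)
  lower := by
    intro x r hr0 hr1
    have hd0 : (0 : ℝ) < d := by exact_mod_cast hd
    have hd1 : (1 : ℝ) ≤ d := by exact_mod_cast hd
    have hsub : (Set.univ.pi fun k => closedBall (x k) (r / d)) ⊆
        (WithLp.toLp 2) ⁻¹' (closedBall x r) := by
      intro y hy
      rw [mem_preimage, mem_closedBall, PiLp.dist_eq_of_L2]
      rw [Real.sqrt_le_left hr0.le]
      calc ∑ k, dist ((WithLp.toLp 2 y : Torus d 1) k) (x k) ^ 2
          ≤ ∑ _k : Fin d, (r / d) ^ 2 := by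
            refine Finset.sum_le_sum fun k _ => ?_
            have h1 : dist (y k) (x k) ≤ r / d := hy k (mem_univ k)
            exact pow_le_pow_left₀ dist_nonneg h1 2
        _ = d * (r / d) ^ 2 := by simp
        _ = r ^ 2 / d := by field_simp
        _ ≤ r ^ 2 := div_le_self (by positivity) hd1
    have h2 : ENNReal.ofReal ((1 / (d : ℝ)) ^ d * r ^ d) ≤ unif d 1 (closedBall x r) := by
      rw [unif, Measure.map_apply (WithLp.measurable_toLp 2 _) isClosed_closedBall.measurableSet]
      refine le_trans ?_ (measure_mono hsub)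
      rw [pi_box, ← ENNReal.ofReal_pow (by positivity)]
      refine ENNReal.ofReal_le_ofReal ?_
      rw [← mul_pow]
      refine pow_le_pow_left₀ (by positivity) (le_min ?_ ?_) d
      · rw [one_div_mul_eq_div, div_le_one hd0]; linarith
      · rw [one_div_mul_eq_div]
        have : 0 ≤ r / d := by positivity
        linarith
    have h3 := ENNReal.toReal_mono (by finiteness) h2
    rwa [ENNReal.toReal_ofReal (by positivity)] at h3
  upper := by
    intro x r hr0
    have hsub : (WithLp.toLp 2) ⁻¹' (closedBall x r) ⊆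
        (Set.univ.pi fun k => closedBall (x k) r) := by
      intro y hy k _
      rw [mem_preimage, mem_closedBall, PiLp.dist_eq_of_L2] at hy
      rw [Real.sqrt_le_left hr0] at hy
      have h1 : dist ((WithLp.toLp 2 y : Torus d 1) k) (x k) ^ 2 ≤ r ^ 2 :=
        (Finset.single_le_sum (f := fun k => dist ((WithLp.toLp 2 y : Torus d 1) k) (x k) ^ 2)
          (fun k _ => by positivity) (Finset.mem_univ k)).trans hy
      exact (pow_le_pow_iff_left₀ dist_nonneg hr0 two_ne_zero).1 h1
    have h2 : unif d 1 (closedBall x r) ≤ ENNReal.ofReal (2 ^ d * r ^ d) := by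
      rw [unif, Measure.map_apply (WithLp.measurable_toLp 2 _) isClosed_closedBall.measurableSet]
      refine (measure_mono hsub).trans ?_
      rw [pi_box, ← ENNReal.ofReal_pow (by positivity)]
      refine ENNReal.ofReal_le_ofReal ?_
      rw [← mul_pow]
      exact pow_le_pow_left₀ (by positivity) (min_le_right _ _) d
    have h3 := ENNReal.toReal_mono (by finiteness) h2
    rwa [ENNReal.toReal_ofReal (by positivity)] at h3

section Scale

variable (L : ℝ) [hL : Fact (0 < L)]

/-- Scaling of the circle. -/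
noncomputable def scC : AddCircle (1 : ℝ) ≃ₜ AddCircle L :=
  AddCircle.homeomorphAddCircle 1 L one_ne_zero hL.out.ne'

lemma scC_add (x y : AddCircle (1 : ℝ)) : scC L (x - y) = scC L x - scC L y :=
  map_sub (AddCircle.equivAddCircle (1 : ℝ) L one_ne_zero hL.out.ne') x y

lemma norm_scC (x : AddCircle (1 : ℝ)) : ‖scC L x‖ = L * ‖x‖ := by
  induction x using QuotientAddGroup.induction_on with
  | H t =>
    have h1 : scC L (t : AddCircle (1 : ℝ)) = ((t * (1⁻¹ * L) : ℝ) : AddCircle L) := rfl
    have h2 : ‖((t : ℝ) : AddCircle (1 : ℝ))‖ = |t - round t| := by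
      rw [AddCircle.norm_eq]; simp
    rw [h1]
    refine Eq.trans ?_ (congrArg (fun z => L * z) h2.symm)
    rw [AddCircle.norm_eq]
    have hL0 := hL.out
    have h3 : L⁻¹ * (t * (1⁻¹ * L)) = t := by field_simp
    rw [h3]
    have h4 : t * (1⁻¹ * L) - (round t : ℝ) * L = L * (t - round t) := by ring
    rw [h4, abs_mul, abs_of_pos hL0]

lemma dist_scC (x y : AddCircle (1 : ℝ)) : dist (scC L x) (scC L y) = L * dist x y := by
  rw [dist_eq_norm, dist_eq_norm, ← scC_add, norm_scC]

lemma map_scC : (AddCircle.haarAddCircle : Measure (AddCircle (1 : ℝ))).map (scC L) =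
    (AddCircle.haarAddCircle : Measure (AddCircle L)) := by
  have h1 : Measure.IsAddHaarMeasure
      ((AddCircle.haarAddCircle : Measure (AddCircle (1 : ℝ))).map (scC L)) :=
    Measure.isAddHaarMeasure_map_of_isFiniteMeasure _
      (AddCircle.equivAddCircle (1 : ℝ) L one_ne_zero hL.out.ne').toAddMonoidHom
      (scC L).continuous (scC L).surjective
  have h2 : IsProbabilityMeasure
      ((AddCircle.haarAddCircle : Measure (AddCircle (1 : ℝ))).map (scC L)) :=
    Measure.isProbabilityMeasure_map (scC L).continuous.aemeasurable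
  exact Measure.isAddHaarMeasure_eq_of_isProbabilityMeasure _ _

/-- Scaling of the torus. -/
noncomputable def scT (d : ℕ) (x : Torus d 1) : Torus d L :=
  WithLp.toLp 2 (fun k => scC L (x k))

lemma measurable_scT (d : ℕ) : Measurable (scT L d) := by
  refine (WithLp.measurable_toLp 2 _).comp ?_
  rw [measurable_pi_iff]
  intro k
  exact (scC L).continuous.measurable.comp
    ((measurable_pi_apply k).comp (WithLp.measurable_ofLp 2 _))

lemma dist_scT (d : ℕ) (x y : Torus d 1) : dist (scT L d x) (scT L d y) = L * dist x y := by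
  rw [PiLp.dist_eq_of_L2, PiLp.dist_eq_of_L2]
  have h1 : ∑ k, dist ((scT L d x) k) ((scT L d y) k) ^ 2 = L ^ 2 * ∑ k, dist (x k) (y k) ^ 2 := by
    rw [Finset.mul_sum]
    refine Finset.sum_congr rfl fun k _ => ?_
    have : dist ((scT L d x) k) ((scT L d y) k) = L * dist (x k) (y k) := dist_scC L _ _
    rw [this, mul_pow]
  rw [h1, Real.sqrt_mul (by positivity), Real.sqrt_sq hL.out.le]

lemma map_scT (d : ℕ) : (unif d 1).map (scT L d) = unif d L := by
  rw [unif, Measure.map_map (measurable_scT L d) (WithLp.measurable_toLp 2 _), unif]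
  have h1 : scT L d ∘ (WithLp.toLp 2) = (WithLp.toLp 2) ∘
      (fun (x : Fin d → AddCircle (1 : ℝ)) k => scC L (x k)) := rfl
  have hm : Measurable (fun (x : Fin d → AddCircle (1 : ℝ)) k => scC L (x k)) := by
    rw [measurable_pi_iff]
    intro k
    exact (scC L).continuous.measurable.comp (measurable_pi_apply k)
  rw [h1, ← Measure.map_map (WithLp.measurable_toLp 2 _) hm]
  congr 1
  have h2 := (Measure.pi_map_pi (μ := fun _ : Fin d =>
    (AddCircle.haarAddCircle : Measure (AddCircle (1 : ℝ)))) (f := fun _ => scC L)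
    (fun _ => (scC L).continuous.aemeasurable))
  rw [h2]
  simp only [map_scC]

end Scale

end Pool.Agent.H95.NN
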